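import Mathlib

set_option autoImplicit false

open Set Filter Topology Metric Bundle MeasureTheory
open scoped ContDiff Manifold ENNReal

namespace Pool.Agent.Helper27Nets

section generic

variable {E : Type*} [NormedAddCommGroup E] [NormedSpace ℝ E]

section top
variable {M : Type*} [TopologicalSpace M] [ChartedSpace E M]

/-- push forward of vectors by the inverse of the chart at `z` -/
noncomputable def push (z : M) (q : E) : E →L[ℝ] TangentSpace 𝓘(ℝ, E) ((chartAt E z).symm q) :=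
  mfderiv 𝓘(ℝ, E) 𝓘(ℝ, E) (chartAt E z).symm q

variable [IsManifold 𝓘(ℝ, E) ∞ M]

theorem push_bijective {z : M} {q : E} (hq : q ∈ (chartAt E z).target) :
    Function.Bijective (push z q) :=
  (mdifferentiable_chart (I := 𝓘(ℝ, E)) z).symm.mfderiv_bijective hq

theorem mfderiv_push {z : M} {q : E} (hq : q ∈ (chartAt E z).target) (v : E) :
    (mfderiv 𝓘(ℝ, E) 𝓘(ℝ, E) (chartAt E z) ((chartAt E z).symm q) (push z q v) : E) = v := by
  have h := (mdifferentiable_chart (I := 𝓘(ℝ, E)) z).comp_symm_deriv hq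
  exact congr($h v)

theorem push_mfderiv {z : M} {q : E} (hq : q ∈ (chartAt E z).target)
    (u : TangentSpace 𝓘(ℝ, E) ((chartAt E z).symm q)) :
    push z q (mfderiv 𝓘(ℝ, E) 𝓘(ℝ, E) (chartAt E z) ((chartAt E z).symm q) u) = u := by
  obtain ⟨v, rfl⟩ := (push_bijective hq).2 u
  exact congrArg (push z q) (mfderiv_push hq v)

variable [RiemannianBundle (fun x : M => TangentSpace 𝓘(ℝ, E) x)]

omit [IsManifold 𝓘(ℝ, E) ∞ M] in
theorem norm_push_congr (z : M) {q q' : E} (h : q = q') (v : E) : ‖push z q v‖ = ‖push z q' v‖ := by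
  subst h; rfl

theorem norm_push_mfderiv {z Y : M} (hY : Y ∈ (chartAt E z).source)
    (u : TangentSpace 𝓘(ℝ, E) Y) :
    ‖push z (chartAt E z Y) (mfderiv 𝓘(ℝ, E) 𝓘(ℝ, E) (chartAt E z) Y u)‖ = ‖u‖ := by
  obtain ⟨q, hq, rfl⟩ : ∃ q ∈ (chartAt E z).target, (chartAt E z).symm q = Y :=
    ⟨chartAt E z Y, (chartAt E z).map_source hY, (chartAt E z).left_inv hY⟩
  have h := norm_push_congr z ((chartAt E z).right_inv hq)
    (mfderiv 𝓘(ℝ, E) 𝓘(ℝ, E) (chartAt E z) ((chartAt E z).symm q) u)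
  rw [push_mfderiv hq u] at h
  exact h

end top

section path
variable {M : Type*} [MetricSpace M] [ChartedSpace E M] [IsManifold 𝓘(ℝ, E) ∞ M]
  [RiemannianBundle (fun x : M => TangentSpace 𝓘(ℝ, E) x)]
  [IsRiemannianManifold 𝓘(ℝ, E) M]

theorem contDiffOn_one_of_hasDeriv {κ κ' : ℝ → E} {a b : ℝ} (hab : a < b)
    (hκ : ∀ t ∈ Icc a b, HasDerivWithinAt κ (κ' t) (Icc a b) t)
    (hc : ContinuousOn κ' (Icc a b)) : ContDiffOn ℝ 1 κ (Icc a b) := by
  rw [contDiffOn_one_iff_derivWithin (uniqueDiffOn_Icc hab)]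
  refine ⟨fun t ht => (hκ t ht).differentiableWithinAt, hc.congr fun t ht => ?_⟩
  exact (hκ t ht).derivWithin (uniqueDiffOn_Icc hab t ht)

theorem edist_le_of_path {z : M} {κ κ' : ℝ → E} {a b : ℝ} (hab : a ≤ b)
    (hκ : ∀ t ∈ Icc a b, HasDerivWithinAt κ (κ' t) (Icc a b) t)
    (hc : ContinuousOn κ' (Icc a b)) (ht : ∀ t ∈ Icc a b, κ t ∈ (chartAt E z).target) :
    edist ((chartAt E z).symm (κ a)) ((chartAt E z).symm (κ b)) ≤
      ∫⁻ t in Icc a b, ‖push z (κ t) (κ' t)‖ₑ := by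
  rcases hab.eq_or_lt with rfl | hab'
  · simp
  have h1 : ContMDiffOn 𝓘(ℝ, E) 𝓘(ℝ, E) 1 (chartAt E z).symm (chartAt E z).target :=
    contMDiffOn_chart_symm
  have h2 : ContMDiffOn 𝓘(ℝ, ℝ) 𝓘(ℝ, E) 1 κ (Icc a b) :=
    (contDiffOn_one_of_hasDeriv hab' hκ hc).contMDiffOn
  have h3 : ContMDiffOn 𝓘(ℝ, ℝ) 𝓘(ℝ, E) 1 ((chartAt E z).symm ∘ κ) (Icc a b) := h1.comp h2 ht
  rw [IsRiemannianManifold.out (I := 𝓘(ℝ, E))]
  refine (Manifold.riemannianEDist_le_pathELength h3 rfl rfl hab).trans_eq ?_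
  rw [Manifold.pathELength_eq_lintegral_mfderivWithin_Icc]
  refine setLIntegral_congr_fun measurableSet_Icc fun t ht' => ?_
  have hu : UniqueMDiffWithinAt 𝓘(ℝ, ℝ) (Icc a b) t := by
    rw [uniqueMDiffWithinAt_iff_uniqueDiffWithinAt]
    exact uniqueDiffOn_Icc hab' _ ht'
  have h4 : mfderivWithin 𝓘(ℝ, ℝ) 𝓘(ℝ, E) ((chartAt E z).symm ∘ κ) (Icc a b) t =
      (mfderiv 𝓘(ℝ, E) 𝓘(ℝ, E) (chartAt E z).symm (κ t)).comp
        (mfderivWithin 𝓘(ℝ, ℝ) 𝓘(ℝ, E) κ (Icc a b) t) := by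
    apply mfderiv_comp_mfderivWithin
    · exact (mdifferentiable_chart (I := 𝓘(ℝ, E)) z).mdifferentiableAt_symm (ht t ht')
    · exact h2.mdifferentiableOn one_ne_zero t ht'
    · exact hu
  have h5 : mfderivWithin 𝓘(ℝ, ℝ) 𝓘(ℝ, E) κ (Icc a b) t (1 : ℝ) = κ' t := by
    rw [mfderivWithin_eq_fderivWithin]
    have := (hκ t ht').derivWithin (uniqueDiffOn_Icc hab' t ht')
    rw [← this]
    rfl
  have h6 : mfderivWithin 𝓘(ℝ, ℝ) 𝓘(ℝ, E) ((chartAt E z).symm ∘ κ) (Icc a b) t (1 : ℝ) =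
      push z (κ t) (κ' t) := by
    rw [h4, ← h5]
    rfl
  exact congrArg (fun v : TangentSpace 𝓘(ℝ, E) ((chartAt E z).symm (κ t)) => ‖v‖ₑ) h6

/-- paths of constant speed in a chart -/
theorem dist_le_of_path {z : M} {κ κ' : ℝ → E} {a b σ : ℝ} (hab : a ≤ b)
    (hκ : ∀ t ∈ Icc a b, HasDerivWithinAt κ (κ' t) (Icc a b) t)
    (hc : ContinuousOn κ' (Icc a b)) (ht : ∀ t ∈ Icc a b, κ t ∈ (chartAt E z).target)
    (hσ : 0 ≤ σ) (hn : ∀ t ∈ Icc a b, ‖push z (κ t) (κ' t)‖ ≤ σ) :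
    dist ((chartAt E z).symm (κ a)) ((chartAt E z).symm (κ b)) ≤ σ * (b - a) := by
  have h := edist_le_of_path hab hκ hc ht
  have h2 : ∫⁻ t in Icc a b, ‖push z (κ t) (κ' t)‖ₑ ≤ ENNReal.ofReal (σ * (b - a)) := by
    calc ∫⁻ t in Icc a b, ‖push z (κ t) (κ' t)‖ₑ ≤ ∫⁻ t in Icc a b, ENNReal.ofReal σ := by
          refine setLIntegral_mono' measurableSet_Icc fun t ht' => ?_
          rw [← ofReal_norm]
          exact ENNReal.ofReal_le_ofReal (hn t ht')
      _ = ENNReal.ofReal (σ * (b - a)) := by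
          rw [setLIntegral_const, Real.volume_Icc, ENNReal.ofReal_mul hσ]
  have h3 := h.trans h2
  rw [edist_dist] at h3
  exact (ENNReal.ofReal_le_ofReal_iff (mul_nonneg hσ (by linarith))).1 h3

/-- calibration: functions with gradient bounded by one are `1`-Lipschitz for the distance -/
theorem calibration {z : M} {x y : E} {F : E → ℝ} {U : Set E} (hU : IsOpen U)
    (hUt : U ⊆ (chartAt E z).target) (hF : ContDiffOn ℝ 1 F U)
    (hgrad : ∀ q ∈ U, ∀ v : E, |fderiv ℝ F q v| ≤ ‖push z q v‖) {r : ℝ}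
    (hball : ∀ Y : M, dist ((chartAt E z).symm x) Y < r →
      Y ∈ (chartAt E z).source ∧ chartAt E z Y ∈ U)
    (hx : x ∈ U) (hy : y ∈ U)
    (hd : dist ((chartAt E z).symm x) ((chartAt E z).symm y) < r) :
    |F y - F x| ≤ dist ((chartAt E z).symm x) ((chartAt E z).symm y) := by
  set X := (chartAt E z).symm x with hX
  set Y := (chartAt E z).symm y with hY
  have key : ENNReal.ofReal |F y - F x| ≤ edist X Y := by
    apply le_of_forall_gt
    intro ℓ' hℓ'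
    set ℓ := min ℓ' (ENNReal.ofReal r) with hℓdef
    have hℓ : edist X Y < ℓ := by
      refine lt_min hℓ' ?_
      rw [edist_dist]
      exact (ENNReal.ofReal_lt_ofReal_iff_of_nonneg dist_nonneg).2 hd
    refine lt_of_lt_of_le ?_ (min_le_left _ _ : ℓ ≤ ℓ')
    rw [IsRiemannianManifold.out (I := 𝓘(ℝ, E))] at hℓ
    obtain ⟨κ, κ0, κ1, κs, κl⟩ := Manifold.exists_lt_of_riemannianEDist_lt hℓ
    have hin : ∀ t ∈ Icc (0 : ℝ) 1, κ t ∈ (chartAt E z).source ∧ chartAt E z (κ t) ∈ U := by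
      intro t ht
      apply hball
      have h1 : edist X (κ t) ≤ Manifold.pathELength 𝓘(ℝ, E) κ 0 t := by
        rw [IsRiemannianManifold.out (I := 𝓘(ℝ, E))]
        exact Manifold.riemannianEDist_le_pathELength
          (κs.mono (Icc_subset_Icc le_rfl ht.2)) κ0 rfl ht.1
      have h2 : Manifold.pathELength 𝓘(ℝ, E) κ 0 t ≤ Manifold.pathELength 𝓘(ℝ, E) κ 0 1 :=
        Manifold.pathELength_mono le_rfl ht.2
      have h3 : edist X (κ t) < ENNReal.ofReal r :=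
        (h1.trans h2).trans_lt (κl.trans_le (min_le_right _ _))
      rw [edist_dist] at h3
      exact (ENNReal.ofReal_lt_ofReal_iff_of_nonneg dist_nonneg).1 h3
    have hc1 : ContMDiffOn 𝓘(ℝ, E) 𝓘(ℝ, E) 1 (chartAt E z) (chartAt E z).source :=
      contMDiffOn_chart
    have hs2 : ContMDiffOn 𝓘(ℝ, ℝ) 𝓘(ℝ, E) 1 (chartAt E z ∘ κ) (Icc 0 1) :=
      hc1.comp κs fun t ht => (hin t ht).1
    have hG : ContDiffOn ℝ 1 (F ∘ (chartAt E z ∘ κ)) (Icc 0 1) :=
      hF.comp hs2.contDiffOn fun t ht => (hin t ht).2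
    have hG1 := enorm_sub_le_lintegral_derivWithin_Icc_of_contDiffOn_Icc hG zero_le_one
    have e1 : (F ∘ (chartAt E z ∘ κ)) 1 = F y := by
      simp only [Function.comp_apply, κ1, hY]
      rw [(chartAt E z).right_inv (hUt hy)]
    have e0 : (F ∘ (chartAt E z ∘ κ)) 0 = F x := by
      simp only [Function.comp_apply, κ0, hX]
      rw [(chartAt E z).right_inv (hUt hx)]
    rw [e1, e0] at hG1
    have hle : ENNReal.ofReal |F y - F x| = ‖F y - F x‖ₑ := by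
      rw [← ofReal_norm, Real.norm_eq_abs]
    rw [hle]
    refine hG1.trans_lt (lt_of_le_of_lt ?_ κl)
    rw [Manifold.pathELength_eq_lintegral_mfderivWithin_Icc]
    refine setLIntegral_mono' measurableSet_Icc fun t ht => ?_
    have hu : UniqueDiffWithinAt ℝ (Icc (0 : ℝ) 1) t := uniqueDiffOn_Icc zero_lt_one _ ht
    have hu' : UniqueMDiffWithinAt 𝓘(ℝ, ℝ) (Icc (0 : ℝ) 1) t := by
      rwa [uniqueMDiffWithinAt_iff_uniqueDiffWithinAt]
    have hκd : MDifferentiableWithinAt 𝓘(ℝ, ℝ) 𝓘(ℝ, E) κ (Icc 0 1) t :=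
      κs.mdifferentiableOn one_ne_zero t ht
    have hcκ : mfderivWithin 𝓘(ℝ, ℝ) 𝓘(ℝ, E) (chartAt E z ∘ κ) (Icc 0 1) t =
        (mfderiv 𝓘(ℝ, E) 𝓘(ℝ, E) (chartAt E z) (κ t)).comp
          (mfderivWithin 𝓘(ℝ, ℝ) 𝓘(ℝ, E) κ (Icc 0 1) t) :=
      mfderiv_comp_mfderivWithin _
        ((mdifferentiable_chart (I := 𝓘(ℝ, E)) z).mdifferentiableAt (hin t ht).1) hκd hu'
    have hd1 : HasFDerivAt F (fderiv ℝ F (chartAt E z (κ t))) (chartAt E z (κ t)) :=
      ((hF.contDiffAt (hU.mem_nhds (hin t ht).2)).differentiableAt one_ne_zero).hasFDerivAt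
    have hd2 : HasDerivWithinAt (chartAt E z ∘ κ)
        (mfderiv 𝓘(ℝ, E) 𝓘(ℝ, E) (chartAt E z) (κ t)
          (mfderivWithin 𝓘(ℝ, ℝ) 𝓘(ℝ, E) κ (Icc 0 1) t (1 : ℝ)) : E) (Icc 0 1) t := by
      have h1 := ((hs2.contDiffOn.differentiableOn one_ne_zero) t ht).hasFDerivWithinAt
      rw [← mfderivWithin_eq_fderivWithin, hcκ] at h1
      exact h1.hasDerivWithinAt
    have hd3 := (hd1.comp_hasDerivWithinAt t hd2).derivWithin hu
    rw [hd3, ← ofReal_norm, ← ofReal_norm]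
    refine ENNReal.ofReal_le_ofReal ?_
    rw [Real.norm_eq_abs]
    refine (hgrad _ (hin t ht).2 _).trans ?_
    rw [norm_push_mfderiv (hin t ht).1]
    exact le_of_eq rfl
  rw [edist_dist] at key
  exact (ENNReal.ofReal_le_ofReal_iff dist_nonneg).1 key

end path

end generic

end Pool.Agent.Helper27Nets
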