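import Pool.Agent.Helper27_Nets.Nice

set_option autoImplicit false

open Set Filter Topology Metric Bundle MeasureTheory
open scoped ContDiff Manifold ENNReal

namespace Pool.Agent.Helper27Nets

open Pool.Agent.Helper4Nets (D2)

section change

variable {E : Type*} [NormedAddCommGroup E] [NormedSpace ℝ E]
variable {M : Type*} [TopologicalSpace M] [ChartedSpace E M] [IsManifold 𝓘(ℝ, E) ∞ M]

theorem transition_contDiffOn (z z' : M) :
    ContDiffOn ℝ 4 (fun q => chartAt E z' ((chartAt E z).symm q))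
      ((chartAt E z).target ∩ (chartAt E z).symm ⁻¹' (chartAt E z').source) := by
  have h1 : ContMDiffOn 𝓘(ℝ, E) 𝓘(ℝ, E) ∞ (chartAt E z).symm (chartAt E z).target :=
    contMDiffOn_chart_symm
  have h2 : ContMDiffOn 𝓘(ℝ, E) 𝓘(ℝ, E) ∞ (chartAt E z') (chartAt E z').source :=
    contMDiffOn_chart
  have h3 : ContMDiffOn 𝓘(ℝ, E) 𝓘(ℝ, E) ∞ (chartAt E z' ∘ (chartAt E z).symm)
      ((chartAt E z).target ∩ (chartAt E z).symm ⁻¹' (chartAt E z').source) :=
    h2.comp (h1.mono inter_subset_left) fun q hq => hq.2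
  have h4 := h3.contDiffOn
  exact h4.of_le (by norm_cast)

omit [NormedSpace ℝ E] [IsManifold 𝓘(ℝ, E) ∞ M] in
theorem isOpen_overlap (z z' : M) :
    IsOpen ((chartAt E z).target ∩ (chartAt E z).symm ⁻¹' (chartAt E z').source) :=
  (chartAt E z).isOpen_inter_preimage_symm (chartAt E z').open_source

/-- the derivative of a function on the manifold does not depend on the chart -/
theorem fderiv_chart_change {z z' : M} {p : E} (hp : p ∈ (chartAt E z).target)
    (hX : (chartAt E z).symm p ∈ (chartAt E z').source) {F : M → ℝ}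
    (hF : DifferentiableAt ℝ (fun q => F ((chartAt E z).symm q)) p)
    (w : TangentSpace 𝓘(ℝ, E) ((chartAt E z).symm p)) :
    fderiv ℝ (fun q => F ((chartAt E z').symm q)) (chartAt E z' ((chartAt E z).symm p))
      (mfderiv 𝓘(ℝ, E) 𝓘(ℝ, E) (chartAt E z') ((chartAt E z).symm p) w : E) =
    fderiv ℝ (fun q => F ((chartAt E z).symm q)) p
      (mfderiv 𝓘(ℝ, E) 𝓘(ℝ, E) (chartAt E z) ((chartAt E z).symm p) w : E) := by
  obtain ⟨X, hXdef⟩ : ∃ X, X = (chartAt E z).symm p := ⟨_, rfl⟩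
  revert w
  rw [← hXdef] at hX ⊢
  intro w
  set τ : E → E := fun q => chartAt E z ((chartAt E z').symm q) with hτ
  have hXs : X ∈ (chartAt E z).source := by rw [hXdef]; exact (chartAt E z).map_target hp
  have hq0 : chartAt E z' X ∈ (chartAt E z').target ∩
      (chartAt E z').symm ⁻¹' (chartAt E z).source := by
    refine ⟨(chartAt E z').map_source hX, ?_⟩
    rw [mem_preimage, (chartAt E z').left_inv hX]
    exact hXs
  have hτd : DifferentiableAt ℝ τ (chartAt E z' X) :=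
    ((transition_contDiffOn z' z).contDiffAt
      ((isOpen_overlap z' z).mem_nhds hq0)).differentiableAt (by norm_num)
  have hτX : τ (chartAt E z' X) = p := by
    simp only [hτ]
    rw [(chartAt E z').left_inv hX, hXdef, (chartAt E z).right_inv hp]
  -- first step
  have e1 : (fun q => F ((chartAt E z').symm q)) =ᶠ[𝓝 (chartAt E z' X)]
      (fun q => F ((chartAt E z).symm q)) ∘ τ := by
    filter_upwards [(isOpen_overlap z' z).mem_nhds hq0] with q hq
    simp only [Function.comp_apply, hτ]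
    rw [(chartAt E z).left_inv hq.2]
  rw [e1.fderiv_eq, fderiv_comp _ (by rw [hτX]; exact hF) hτd, hτX]
  -- second step
  have e2 : τ ∘ (chartAt E z') =ᶠ[𝓝 X] chartAt E z := by
    filter_upwards [(chartAt E z').open_source.mem_nhds hX] with Y hY
    simp only [Function.comp_apply, hτ]
    rw [(chartAt E z').left_inv hY]
  have e3 : mfderiv 𝓘(ℝ, E) 𝓘(ℝ, E) (τ ∘ (chartAt E z')) X =
      (mfderiv 𝓘(ℝ, E) 𝓘(ℝ, E) τ (chartAt E z' X)).comp
        (mfderiv 𝓘(ℝ, E) 𝓘(ℝ, E) (chartAt E z') X) :=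
    mfderiv_comp X hτd.mdifferentiableAt
      ((mdifferentiable_chart (I := 𝓘(ℝ, E)) z').mdifferentiableAt hX)
  have e4 := e2.mfderiv_eq (I := 𝓘(ℝ, E)) (I' := 𝓘(ℝ, E))
  have e5 : (fderiv ℝ τ (chartAt E z' X)) (mfderiv 𝓘(ℝ, E) 𝓘(ℝ, E) (chartAt E z') X w : E) =
      (mfderiv 𝓘(ℝ, E) 𝓘(ℝ, E) (chartAt E z) X w : E) := by
    have h5 : (mfderiv 𝓘(ℝ, E) 𝓘(ℝ, E) (τ ∘ (chartAt E z')) X w : E) =
      (mfderiv 𝓘(ℝ, E) 𝓘(ℝ, E) (chartAt E z) X w : E) := congr($e4 w)
    rw [← h5, e3, mfderiv_eq_fderiv]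
    rfl
  exact congrArg (fderiv ℝ (fun q => F ((chartAt E z).symm q)) p) e5

end change

section lip

variable {E : Type*} [NormedAddCommGroup E] [NormedSpace ℝ E] [FiniteDimensional ℝ E]
variable {M : Type*} [MetricSpace M] [ChartedSpace E M]
  [RiemannianBundle (fun x : M => TangentSpace 𝓘(ℝ, E) x)]
  [IsManifold 𝓘(ℝ, E) ∞ M]
  [IsContMDiffRiemannianBundle 𝓘(ℝ, E) ∞ E (fun x : M => TangentSpace 𝓘(ℝ, E) x)]
  [IsRiemannianManifold 𝓘(ℝ, E) M]

theorem chart_symm_lip (z : M) {x : E} (hx : x ∈ (chartAt E z).target) :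
    ∃ C : ℝ, ∃ V ∈ 𝓝 x, ∀ y ∈ V, ∀ y' ∈ V,
      dist ((chartAt E z).symm y) ((chartAt E z).symm y') ≤ C * ‖y - y'‖ := by
  have hc : ContinuousAt (fun q => ‖met z q‖) x := by
    have h0 : Continuous (fun A : E →L[ℝ] E →L[ℝ] ℝ => ‖A‖) :=
      continuous_norm (E := E →L[ℝ] E →L[ℝ] ℝ)
    exact h0.continuousAt.comp ((contDiffOn_met z).continuousOn.continuousAt
      ((chartAt E z).open_target.mem_nhds hx))
  have h1 : ∀ᶠ q in 𝓝 x, ‖met z q‖ < ‖met z x‖ + 1 :=
    hc.eventually_lt_const (by linarith)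
  have h2 := h1.and ((chartAt E z).open_target.mem_nhds hx)
  obtain ⟨r, hr, hr'⟩ := Metric.eventually_nhds_iff_ball.1 h2
  have hpush : ∀ q ∈ ball x r, ∀ v : E, ‖push z q v‖ ≤ √(‖met z x‖ + 1) * ‖v‖ := by
    intro q hq v
    have h3 : ‖push z q v‖ ^ 2 ≤ (√(‖met z x‖ + 1) * ‖v‖) ^ 2 := by
      rw [← met_self, mul_pow, Real.sq_sqrt (by positivity)]
      calc met z q v v ≤ |met z q v v| := le_abs_self _
        _ = ‖met z q v v‖ := (Real.norm_eq_abs _).symm
        _ ≤ ‖met z q‖ * ‖v‖ * ‖v‖ := (met z q).le_opNorm₂ v v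
        _ ≤ (‖met z x‖ + 1) * ‖v‖ * ‖v‖ := by
            have := (hr' q hq).1
            gcongr
        _ = (‖met z x‖ + 1) * ‖v‖ ^ 2 := by ring
    exact abs_le_of_sq_le_sq' h3 (by positivity) |>.2
  refine ⟨√(‖met z x‖ + 1), ball x r, ball_mem_nhds x hr, fun y hy y' hy' => ?_⟩
  have hseg : ∀ t ∈ Icc (0 : ℝ) 1, y + t • (y' - y) ∈ ball x r := by
    intro t ht
    exact (convex_ball x r).add_smul_sub_mem hy hy' ht
  have hd := dist_le_of_path (z := z) (κ := fun t => y + t • (y' - y)) (κ' := fun _ => y' - y)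
    (a := 0) (b := 1) (σ := √(‖met z x‖ + 1) * ‖y' - y‖) zero_le_one
    (fun t _ => by
      have := ((hasDerivAt_id t).smul_const (y' - y)).const_add y
      simpa using this.hasDerivWithinAt)
    continuousOn_const (fun t ht => (hr' _ (hseg t ht)).2) (by positivity)
    (fun t ht => hpush _ (hseg t ht) _)
  simp only [zero_smul, add_zero, one_smul, add_sub_cancel, sub_zero, mul_one] at hd
  rwa [norm_sub_rev]

end lip

section dist

variable {E : Type*} [NormedAddCommGroup E] [InnerProductSpace ℝ E]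
variable {M : Type*} [MetricSpace M] [ChartedSpace E M]
  [RiemannianBundle (fun x : M => TangentSpace 𝓘(ℝ, E) x)]

namespace LocalGeod

variable {z : M} {w : E} {R δ : ℝ} {γ γ' : E → E → ℝ → E} {En : E × E → ℝ}

theorem ball_target (H : LocalGeod z w R δ γ γ' En) : ball w δ ⊆ (chartAt E z).target :=
  (ball_subset_ball H.δ_le).trans H.sub

theorem dist_pos (H : LocalGeod z w R δ γ γ' En) {x y : E} (hx : x ∈ ball w δ)
    (hy : y ∈ ball w δ) (hxy : x ≠ y) :
    0 < dist ((chartAt E z).symm x) ((chartAt E z).symm y) :=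
  _root_.dist_pos.2 fun h => hxy ((chartAt E z).symm.injOn (H.ball_target hx) (H.ball_target hy) h)

theorem dist_eq (H : LocalGeod z w R δ γ γ' En) {x y : E} (hx : x ∈ ball w δ)
    (hy : y ∈ ball w δ) :
    dist ((chartAt E z).symm x) ((chartAt E z).symm y) = √(2 * En (x, y)) := by
  rw [← H.dist_sq x hx y hy, Real.sqrt_sq dist_nonneg]

theorem contDiffAt_dist (H : LocalGeod z w R δ γ γ' En) {x y : E} (hx : x ∈ ball w δ)
    (hy : y ∈ ball w δ) (hxy : x ≠ y) :
    ContDiffAt ℝ 4 (fun p : E × E => dist ((chartAt E z).symm p.1) ((chartAt E z).symm p.2))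
      (x, y) := by
  have hmem : ball w δ ×ˢ ball w δ ∈ 𝓝 (x, y) :=
    (isOpen_ball.prod isOpen_ball).mem_nhds ⟨hx, hy⟩
  have h1 : (fun p : E × E => dist ((chartAt E z).symm p.1) ((chartAt E z).symm p.2)) =ᶠ[𝓝 (x, y)]
      fun p => √(2 * En p) := by
    filter_upwards [hmem] with p hp
    exact H.dist_eq hp.1 hp.2
  have h2 : ContDiffAt ℝ 4 (fun p => 2 * En p) (x, y) :=
    contDiffAt_const.mul (H.smooth.contDiffAt hmem)
  have h3 : 2 * En (x, y) ≠ 0 := by
    rw [← H.dist_sq x hx y hy]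
    exact (pow_pos (H.dist_pos hx hy hxy) 2).ne'
  exact (h2.sqrt h3).congr_of_eventuallyEq h1

/-- first variation formula in the chart of the geodesic -/
theorem fderiv_dist (H : LocalGeod z w R δ γ γ' En) {x y : E} (hx : x ∈ ball w δ)
    (hy : y ∈ ball w δ) (hxy : x ≠ y) (u v : E) :
    fderiv ℝ (fun p : E × E => dist ((chartAt E z).symm p.1) ((chartAt E z).symm p.2)) (x, y) (u, v)
      * dist ((chartAt E z).symm x) ((chartAt E z).symm y) =
      met z y (γ' x y 1) v - met z x (γ' x y 0) u := by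
  have hmem : ball w δ ×ˢ ball w δ ∈ 𝓝 (x, y) :=
    (isOpen_ball.prod isOpen_ball).mem_nhds ⟨hx, hy⟩
  set f := fun p : E × E => dist ((chartAt E z).symm p.1) ((chartAt E z).symm p.2) with hf
  have hfd : HasFDerivAt f (fderiv ℝ f (x, y)) (x, y) :=
    ((H.contDiffAt_dist hx hy hxy).differentiableAt (by norm_num)).hasFDerivAt
  have h1 : (fun p : E × E => f p ^ 2) =ᶠ[𝓝 (x, y)] fun p => 2 * En p := by
    filter_upwards [hmem] with p hp
    exact H.dist_sq p.1 hp.1 p.2 hp.2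
  have h2 : HasFDerivAt (fun p => f p ^ 2) ((2 * f (x, y)) • fderiv ℝ f (x, y)) (x, y) := by
    refine (hfd.pow 2).congr_fderiv ?_
    congr 1
    norm_num
  have h3 : HasFDerivAt (fun p => 2 * En p) ((2 : ℝ) • fderiv ℝ En (x, y)) (x, y) :=
    (((H.smooth.contDiffAt hmem).differentiableAt (by norm_num)).hasFDerivAt).const_mul 2
  have h4 := h2.unique (h3.congr_of_eventuallyEq h1)
  have h5 : (2 * f (x, y)) * fderiv ℝ f (x, y) (u, v) = 2 * fderiv ℝ En (x, y) (u, v) :=
    congr($h4 (u, v))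
  rw [H.fd x hx y hy] at h5
  have h6 : f (x, y) = dist ((chartAt E z).symm x) ((chartAt E z).symm y) := rfl
  rw [← h6]
  linarith

end LocalGeod

end dist

end Pool.Agent.Helper27Nets
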