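import Pool.Agent.Helper27_Nets.Metric
import Pool.Agent.Helper4_Nets.DefsManifold

set_option autoImplicit false

open Set Filter Topology Metric Bundle MeasureTheory
open scoped ContDiff Manifold ENNReal

namespace Pool.Agent.Helper27Nets

open Pool.Agent.Helper4Nets (D2)

/-- generic version of `ShortGeodesics` -/
def ShortGeod (E : Type*) [NormedAddCommGroup E] [InnerProductSpace ℝ E] : Prop :=
  ∀ (g : E → E →L[ℝ] E →L[ℝ] ℝ), ContDiff ℝ ∞ g → (∀ x v w, g x v w = g x w v) →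
    (∀ x v, v ≠ 0 → 0 < g x v v) → ∀ (z : E) (R : ℝ), 0 < R →
    ∃ (δ : ℝ) (γ γ' : E → E → ℝ → E) (En : E × E → ℝ), 0 < δ ∧ δ ≤ R ∧
      ContDiffOn ℝ 4 En (ball z δ ×ˢ ball z δ) ∧
      (∀ x ∈ ball z δ, ∀ y ∈ ball z δ,
        γ x y 0 = x ∧ γ x y 1 = y ∧
        (∀ t ∈ Icc (0 : ℝ) 1, γ x y t ∈ ball z R) ∧
        (∀ t ∈ Icc (0 : ℝ) 1, HasDerivWithinAt (γ x y) (γ' x y t) (Icc 0 1) t) ∧
        ContinuousOn (γ' x y) (Icc 0 1) ∧
        (∀ t ∈ Icc (0 : ℝ) 1, g (γ x y t) (γ' x y t) (γ' x y t) = 2 * En (x, y)) ∧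
        (∀ u v, fderiv ℝ En (x, y) (u, v) = g y (γ' x y 1) v - g x (γ' x y 0) u)) ∧
      (∀ x ∈ ball z δ, En (x, x) = 0 ∧ ∀ u v u' v', D2 En (x, x) (u, v) (u', v') =
        g x (u - v) (u' - v')) ∧
      ∀ ε > 0, ∃ δ' > 0, ∀ p ∈ ball z δ', ∀ m ∈ ball z δ', ∃ q ∈ ball z ε, γ p q (1 / 2) = m

section

variable {E : Type*} [NormedAddCommGroup E] [InnerProductSpace ℝ E]

/-- the short geodesics near a point of a Riemannian manifold, in the chart at `z` -/
structure LocalGeod {M : Type*} [MetricSpace M] [ChartedSpace E M]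
    [RiemannianBundle (fun x : M => TangentSpace 𝓘(ℝ, E) x)] (z : M) (w : E) (R δ : ℝ)
    (γ γ' : E → E → ℝ → E) (En : E × E → ℝ) : Prop where
  δ_pos : 0 < δ
  δ_le : δ ≤ R
  sub : ball w R ⊆ (chartAt E z).target
  smooth : ContDiffOn ℝ 4 En (ball w δ ×ˢ ball w δ)
  γ0 : ∀ x ∈ ball w δ, ∀ y ∈ ball w δ, γ x y 0 = x
  γ1 : ∀ x ∈ ball w δ, ∀ y ∈ ball w δ, γ x y 1 = y
  mem : ∀ x ∈ ball w δ, ∀ y ∈ ball w δ, ∀ t ∈ Icc (0 : ℝ) 1, γ x y t ∈ ball w R
  deriv : ∀ x ∈ ball w δ, ∀ y ∈ ball w δ, ∀ t ∈ Icc (0 : ℝ) 1,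
    HasDerivWithinAt (γ x y) (γ' x y t) (Icc 0 1) t
  cont : ∀ x ∈ ball w δ, ∀ y ∈ ball w δ, ContinuousOn (γ' x y) (Icc 0 1)
  speed : ∀ x ∈ ball w δ, ∀ y ∈ ball w δ, ∀ t ∈ Icc (0 : ℝ) 1,
    met z (γ x y t) (γ' x y t) (γ' x y t) = 2 * En (x, y)
  fd : ∀ x ∈ ball w δ, ∀ y ∈ ball w δ, ∀ u v,
    fderiv ℝ En (x, y) (u, v) = met z y (γ' x y 1) v - met z x (γ' x y 0) u
  diag : ∀ x ∈ ball w δ, En (x, x) = 0
  hess : ∀ x ∈ ball w δ, ∀ u v u' v', D2 En (x, x) (u, v) (u', v') = met z x (u - v) (u' - v')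
  refl : ∀ ε > 0, ∃ δ' > 0, ∀ p ∈ ball w δ', ∀ m ∈ ball w δ', ∃ q ∈ ball w ε,
    γ p q (1 / 2) = m
  dist_sq : ∀ x ∈ ball w δ, ∀ y ∈ ball w δ,
    dist ((chartAt E z).symm x) ((chartAt E z).symm y) ^ 2 = 2 * En (x, y)
  dist_seg : ∀ x ∈ ball w δ, ∀ y ∈ ball w δ, ∀ s ∈ Icc (0 : ℝ) 1, ∀ t ∈ Icc (0 : ℝ) 1,
    dist ((chartAt E z).symm (γ x y s)) ((chartAt E z).symm (γ x y t)) =
      |s - t| * dist ((chartAt E z).symm x) ((chartAt E z).symm y)

variable {M : Type*} [MetricSpace M] [ChartedSpace E M]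
  [RiemannianBundle (fun x : M => TangentSpace 𝓘(ℝ, E) x)]
  [IsManifold 𝓘(ℝ, E) ∞ M] [IsRiemannianManifold 𝓘(ℝ, E) M]

/-- the lower bound for the distance given by the gradient estimate -/
theorem sqrt_le_dist {z : M} {w : E} {δ : ℝ} {γ' : E → E → ℝ → E} {En : E × E → ℝ}
    (hδ : 0 < δ) (hsub : ball w δ ⊆ (chartAt E z).target)
    (smooth : ContDiffOn ℝ 4 En (ball w δ ×ˢ ball w δ))
    (speed : ∀ x ∈ ball w δ, ∀ y ∈ ball w δ, met z y (γ' x y 1) (γ' x y 1) = 2 * En (x, y))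
    (fd : ∀ x ∈ ball w δ, ∀ y ∈ ball w δ, ∀ v, fderiv ℝ En (x, y) (0, v) = met z y (γ' x y 1) v)
    (diag : ∀ x ∈ ball w δ, En (x, x) = 0) :
    ∃ δ' > 0, δ' ≤ δ ∧ ∀ x ∈ ball w δ', ∀ y ∈ ball w δ',
      √(2 * En (x, y)) ≤ dist ((chartAt E z).symm x) ((chartAt E z).symm y) := by
  have hw : w ∈ ball w δ := mem_ball_self hδ
  set c := chartAt E z with hc
  have hcw : c.symm w ∈ c.source := c.map_target (hsub hw)
  -- an open neighbourhood of the centre
  have hO : {Y | Y ∈ c.source ∧ c Y ∈ ball w δ} ∈ 𝓝 (c.symm w) := by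
    have h1 : c.source ∈ 𝓝 (c.symm w) := c.open_source.mem_nhds hcw
    have h2 : c ⁻¹' ball w δ ∈ 𝓝 (c.symm w) := by
      apply (c.continuousAt hcw).preimage_mem_nhds
      rw [c.right_inv (hsub hw)]
      exact isOpen_ball.mem_nhds hw
    exact inter_mem h1 h2
  obtain ⟨r1, hr1, hr1'⟩ := Metric.mem_nhds_iff.1 hO
  have hcont : ContinuousAt c.symm w := c.continuousAt_symm (hsub hw)
  obtain ⟨δ1, hδ1, hδ1'⟩ := Metric.continuousAt_iff.1 hcont (r1 / 4) (by positivity)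
  refine ⟨min δ δ1, lt_min hδ hδ1, min_le_left _ _, ?_⟩
  intro x hx y hy
  have hxδ : x ∈ ball w δ := ball_subset_ball (min_le_left _ _) hx
  have hyδ : y ∈ ball w δ := ball_subset_ball (min_le_left _ _) hy
  have hxd : dist (c.symm x) (c.symm w) < r1 / 4 :=
    hδ1' (ball_subset_ball (min_le_right _ _) hx)
  have hyd : dist (c.symm y) (c.symm w) < r1 / 4 :=
    hδ1' (ball_subset_ball (min_le_right _ _) hy)
  have hxy : dist (c.symm x) (c.symm y) < r1 / 2 := by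
    have := dist_triangle_right (c.symm x) (c.symm y) (c.symm w)
    linarith
  have hball : ∀ Y : M, dist (c.symm x) Y < r1 / 2 → Y ∈ c.source ∧ c Y ∈ ball w δ := by
    intro Y hY
    apply hr1'
    rw [mem_ball]
    have h1 := dist_triangle_left Y (c.symm w) (c.symm x)
    linarith
  have hnn : ∀ q ∈ ball w δ, 0 ≤ En (x, q) := by
    intro q hq
    have h1 := speed x hxδ q hq
    rw [met_self] at h1
    nlinarith [sq_nonneg ‖push z q (γ' x q 1)‖]
  refine le_of_forall_pos_le_add fun ε hε => ?_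
  have hU : ContDiffOn ℝ 4 (fun q => ε ^ 2 + 2 * En (x, q)) (ball w δ) := by
    have h1 : ContDiffOn ℝ 4 (fun q => En (x, q)) (ball w δ) :=
      smooth.comp (contDiffOn_const.prodMk contDiffOn_id) fun q hq => ⟨hxδ, hq⟩
    exact contDiffOn_const.add (contDiffOn_const.mul h1)
  have hpos : ∀ q ∈ ball w δ, 0 < ε ^ 2 + 2 * En (x, q) := by
    intro q hq
    have := hnn q hq
    positivity
  have hcal := calibration (z := z) (x := x) (y := y) (F := fun q => √(ε ^ 2 + 2 * En (x, q)))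
    (U := ball w δ) isOpen_ball hsub
    ((hU.sqrt fun q hq => (hpos q hq).ne').of_le (by norm_cast))
    ?_ hball hxδ hyδ hxy
  · have h1 : √(ε ^ 2 + 2 * En (x, x)) = ε := by
      rw [diag x hxδ, mul_zero, add_zero, Real.sqrt_sq hε.le]
    have h2 : √(2 * En (x, y)) ≤ √(ε ^ 2 + 2 * En (x, y)) :=
      Real.sqrt_le_sqrt (by nlinarith [sq_nonneg ε])
    have h3 := le_abs_self (√(ε ^ 2 + 2 * En (x, y)) - √(ε ^ 2 + 2 * En (x, x)))
    rw [h1] at h3 hcal
    linarith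
  · intro q hq v
    have hd : HasFDerivAt En (fderiv ℝ En (x, q)) (x, q) := by
      have : ContDiffAt ℝ 4 En (x, q) :=
        smooth.contDiffAt ((isOpen_ball.prod isOpen_ball).mem_nhds ⟨hxδ, hq⟩)
      exact (this.differentiableAt (by norm_num)).hasFDerivAt
    have hd2 : HasFDerivAt (fun q => ε ^ 2 + 2 * En (x, q))
        ((2 : ℝ) • (fderiv ℝ En (x, q)).comp (ContinuousLinearMap.inr ℝ E E)) q := by
      have h1 : HasFDerivAt (fun q => En (x, q))
        ((fderiv ℝ En (x, q)).comp (ContinuousLinearMap.inr ℝ E E)) q :=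
        hd.comp q (hasFDerivAt_prodMk_right x q)
      exact (h1.const_mul 2).const_add _
    have hd3 := hd2.sqrt (hpos q hq).ne'
    rw [hd3.fderiv]
    have hs : 0 < √(ε ^ 2 + 2 * En (x, q)) := Real.sqrt_pos.2 (hpos q hq)
    have e1 : ((1 / (2 * √(ε ^ 2 + 2 * En (x, q)))) •
        ((2 : ℝ) • (fderiv ℝ En (x, q)).comp (ContinuousLinearMap.inr ℝ E E))) v =
        met z q (γ' x q 1) v / √(ε ^ 2 + 2 * En (x, q)) := by
      change (1 / (2 * √(ε ^ 2 + 2 * En (x, q)))) * (2 * fderiv ℝ En (x, q) (0, v)) = _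
      rw [fd x hxδ q hq]
      field_simp
    rw [e1, abs_div, abs_of_pos hs, div_le_iff₀ hs]
    refine (abs_met_le z q _ _).trans ?_
    rw [mul_comm]
    refine mul_le_mul_of_nonneg_left ?_ (norm_nonneg _)
    apply Real.le_sqrt_of_sq_le
    rw [← met_self, speed x hxδ q hq]
    nlinarith [sq_nonneg ε]

/-- existence of the local geodesics -/
theorem exists_localGeod [FiniteDimensional ℝ E]
    [IsContMDiffRiemannianBundle 𝓘(ℝ, E) ∞ E (fun x : M => TangentSpace 𝓘(ℝ, E) x)]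
    (hSG : ShortGeod E) (z : M) {w : E} (hw : w ∈ (chartAt E z).target) {R0 : ℝ} (hR0 : 0 < R0) :
    ∃ (R δ : ℝ) (γ γ' : E → E → ℝ → E) (En : E × E → ℝ), R ≤ R0 ∧
      LocalGeod z w R δ γ γ' En := by
  obtain ⟨ρ, hρ, hρ'⟩ := Metric.isOpen_iff.1 (chartAt E z).open_target w hw
  set R := min R0 (ρ / 4) with hRdef
  have hR : 0 < R := lt_min hR0 (by positivity)
  have hRρ : 2 * R < ρ := by
    have : R ≤ ρ / 4 := min_le_right _ _
    linarith
  have hcl : closedBall w (2 * R) ⊆ (chartAt E z).target :=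
    (closedBall_subset_ball hRρ).trans hρ'
  have hsubR : ball w R ⊆ (chartAt E z).target :=
    (ball_subset_ball (by linarith)).trans hρ'
  obtain ⟨g, hg, hgs, hgp, hgm⟩ := exists_global_metric z hR hcl
  obtain ⟨δ, γ, γ', En, hδ, hδR, hsm, hpath, hdiag, hrefl⟩ := hSG g hg hgs hgp w R hR
  have hb : ball w δ ⊆ ball w R := ball_subset_ball hδR
  have hmem : ∀ x ∈ ball w δ, ∀ y ∈ ball w δ, ∀ t ∈ Icc (0 : ℝ) 1, γ x y t ∈ ball w R :=
    fun x hx y hy => (hpath x hx y hy).2.2.1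
  have hspeed : ∀ x ∈ ball w δ, ∀ y ∈ ball w δ, ∀ t ∈ Icc (0 : ℝ) 1,
      met z (γ x y t) (γ' x y t) (γ' x y t) = 2 * En (x, y) := by
    intro x hx y hy t ht
    rw [← hgm _ (hmem x hx y hy t ht)]
    exact (hpath x hx y hy).2.2.2.2.2.1 t ht
  have hfd : ∀ x ∈ ball w δ, ∀ y ∈ ball w δ, ∀ u v,
      fderiv ℝ En (x, y) (u, v) = met z y (γ' x y 1) v - met z x (γ' x y 0) u := by
    intro x hx y hy u v
    rw [← hgm _ (hb hx), ← hgm _ (hb hy)]
    exact (hpath x hx y hy).2.2.2.2.2.2 u v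
  have h1I : (1 : ℝ) ∈ Icc (0 : ℝ) 1 := ⟨zero_le_one, le_rfl⟩
  have h0I : (0 : ℝ) ∈ Icc (0 : ℝ) 1 := ⟨le_rfl, zero_le_one⟩
  obtain ⟨δ', hδ', hδ'δ, hlow⟩ := sqrt_le_dist (z := z) (w := w) (δ := δ) (γ' := γ') (En := En)
    hδ (hb.trans hsubR) hsm
    (fun x hx y hy => by
      have := hspeed x hx y hy 1 h1I
      rwa [(hpath x hx y hy).2.1] at this)
    (fun x hx y hy v => by rw [hfd x hx y hy]; simp)
    (fun x hx => (hdiag x hx).1)
  have hb' : ball w δ' ⊆ ball w δ := ball_subset_ball hδ'δ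
  have hnn : ∀ x ∈ ball w δ, ∀ y ∈ ball w δ, 0 ≤ En (x, y) := by
    intro x hx y hy
    have h1 := hspeed x hx y hy 0 h0I
    rw [met_self] at h1
    nlinarith [sq_nonneg ‖push z (γ x y 0) (γ' x y 0)‖]
  -- upper bound along the geodesics
  have hup : ∀ x ∈ ball w δ, ∀ y ∈ ball w δ, ∀ s ∈ Icc (0 : ℝ) 1, ∀ t ∈ Icc (0 : ℝ) 1, s ≤ t →
      dist ((chartAt E z).symm (γ x y s)) ((chartAt E z).symm (γ x y t)) ≤
        √(2 * En (x, y)) * (t - s) := by
    intro x hx y hy s hs t ht hst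
    have hsub : Icc s t ⊆ Icc 0 1 := Icc_subset_Icc hs.1 ht.2
    apply dist_le_of_path (κ' := γ' x y) hst
    · intro τ hτ
      exact ((hpath x hx y hy).2.2.2.1 τ (hsub hτ)).mono hsub
    · exact (hpath x hx y hy).2.2.2.2.1.mono hsub
    · intro τ hτ
      exact hsubR (hmem x hx y hy τ (hsub hτ))
    · exact Real.sqrt_nonneg _
    · intro τ hτ
      apply Real.le_sqrt_of_sq_le
      rw [← met_self, hspeed x hx y hy τ (hsub hτ)]
  have hdist : ∀ x ∈ ball w δ', ∀ y ∈ ball w δ',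
      dist ((chartAt E z).symm x) ((chartAt E z).symm y) = √(2 * En (x, y)) := by
    intro x hx y hy
    apply le_antisymm
    · have := hup x (hb' hx) y (hb' hy) 0 h0I 1 h1I zero_le_one
      rw [(hpath x (hb' hx) y (hb' hy)).1, (hpath x (hb' hx) y (hb' hy)).2.1] at this
      linarith
    · exact hlow x hx y hy
  have hsegle : ∀ x ∈ ball w δ', ∀ y ∈ ball w δ', ∀ s ∈ Icc (0 : ℝ) 1, ∀ t ∈ Icc (0 : ℝ) 1,
      s ≤ t → dist ((chartAt E z).symm (γ x y s)) ((chartAt E z).symm (γ x y t)) =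
        (t - s) * dist ((chartAt E z).symm x) ((chartAt E z).symm y) := by
    intro x hx y hy s hs t ht hst
    have hx' := hb' hx
    have hy' := hb' hy
    have h1 := hup x hx' y hy' s hs t ht hst
    have h2 := hup x hx' y hy' 0 h0I s hs hs.1
    have h3 := hup x hx' y hy' t ht 1 h1I ht.2
    rw [← hdist x hx y hy] at h1 h2 h3
    rw [(hpath x hx' y hy').1] at h2
    rw [(hpath x hx' y hy').2.1] at h3
    have h4 := dist_triangle4 ((chartAt E z).symm x) ((chartAt E z).symm (γ x y s))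
      ((chartAt E z).symm (γ x y t)) ((chartAt E z).symm y)
    apply le_antisymm
    · linarith
    · nlinarith
  refine ⟨R, δ', γ, γ', En, min_le_left _ _, ?_⟩
  exact
    { δ_pos := hδ'
      δ_le := hδ'δ.trans hδR
      sub := hsubR
      smooth := hsm.mono (prod_mono hb' hb')
      γ0 := fun x hx y hy => (hpath x (hb' hx) y (hb' hy)).1
      γ1 := fun x hx y hy => (hpath x (hb' hx) y (hb' hy)).2.1
      mem := fun x hx y hy => hmem x (hb' hx) y (hb' hy)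
      deriv := fun x hx y hy => (hpath x (hb' hx) y (hb' hy)).2.2.2.1
      cont := fun x hx y hy => (hpath x (hb' hx) y (hb' hy)).2.2.2.2.1
      speed := fun x hx y hy => hspeed x (hb' hx) y (hb' hy)
      fd := fun x hx y hy => hfd x (hb' hx) y (hb' hy)
      diag := fun x hx => (hdiag x (hb' hx)).1
      hess := fun x hx u v u' v' => by
        rw [← hgm _ (hb (hb' hx))]
        exact (hdiag x (hb' hx)).2 u v u' v'
      refl := hrefl
      dist_sq := fun x hx y hy => by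
        rw [hdist x hx y hy, Real.sq_sqrt]
        have := hnn x (hb' hx) y (hb' hy)
        positivity
      dist_seg := fun x hx y hy s hs t ht => by
        rcases le_total s t with h | h
        · rw [hsegle x hx y hy s hs t ht h, abs_sub_comm, abs_of_nonneg (by linarith)]
        · rw [dist_comm, hsegle x hx y hy t ht s hs h, abs_of_nonneg (by linarith)] }

end

end Pool.Agent.Helper27Nets
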