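import Pool.Agent.Helper27_Nets.PartI
import Pool.Agent.Helper68_Nets.Main

/-!
MODULE M3 of MP_f059bd_gt (S14193): `PartI S` for every closed Riemannian surface.
-/

set_option autoImplicit false

open Set Filter Topology Metric Bundle MeasureTheory
open scoped ContDiff Manifold ENNReal

namespace Pool.Agent.Helper27Nets

open Pool.Agent.Helper4Nets

theorem shortGeod : ShortGeod E2 := Pool.Agent.Helper68Nets.shortGeodesicsLoc

theorem partI (S : Type) [MetricSpace S] [ChartedSpace (EuclideanSpace ℝ (Fin 2)) S]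
    [IsManifold 𝓘(ℝ, EuclideanSpace ℝ (Fin 2)) ∞ S] [CompactSpace S]
    [RiemannianBundle (fun x : S => TangentSpace 𝓘(ℝ, EuclideanSpace ℝ (Fin 2)) x)]
    [IsContMDiffRiemannianBundle 𝓘(ℝ, EuclideanSpace ℝ (Fin 2)) ∞ (EuclideanSpace ℝ (Fin 2))
      (fun x : S => TangentSpace 𝓘(ℝ, EuclideanSpace ℝ (Fin 2)) x)]
    [IsRiemannianManifold 𝓘(ℝ, EuclideanSpace ℝ (Fin 2)) S] : PartI S :=
  partI_of_shortGeod shortGeod S

end Pool.Agent.Helper27Nets
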