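import Pool.Agent.Helper27_Nets.Chart

set_option autoImplicit false

open Set Filter Topology Metric Bundle MeasureTheory
open scoped ContDiff Manifold ENNReal

namespace Pool.Agent.Helper27Nets

section generic

variable {E : Type*} [NormedAddCommGroup E] [NormedSpace ℝ E]
variable {M : Type*} [TopologicalSpace M] [ChartedSpace E M]
  [RiemannianBundle (fun x : M => TangentSpace 𝓘(ℝ, E) x)]

/-- the Riemannian metric in the chart at `z` -/
noncomputable def met (z : M) (q : E) : E →L[ℝ] E →L[ℝ] ℝ :=
  (innerSL ℝ (E := TangentSpace 𝓘(ℝ, E) ((chartAt E z).symm q))).bilinearComp (push z q) (push z q)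

theorem met_apply (z : M) (q v w : E) :
    met z q v w = inner ℝ (push z q v) (push z q w) := rfl

theorem met_symm (z : M) (q v w : E) : met z q v w = met z q w v := by
  rw [met_apply, met_apply]
  exact real_inner_comm _ _

theorem met_self (z : M) (q v : E) : met z q v v = ‖push z q v‖ ^ 2 := by
  rw [met_apply]
  exact real_inner_self_eq_norm_sq _

theorem abs_met_le (z : M) (q v w : E) : |met z q v w| ≤ ‖push z q v‖ * ‖push z q w‖ := by
  rw [met_apply]
  exact abs_real_inner_le_norm _ _

variable [IsManifold 𝓘(ℝ, E) ∞ M]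

theorem met_pos {z : M} {q : E} (hq : q ∈ (chartAt E z).target) {v : E} (hv : v ≠ 0) :
    0 < met z q v v := by
  rw [met_self]
  have : push z q v ≠ 0 := fun h => hv ((push_bijective hq).1 (by rw [h, map_zero]))
  positivity

omit [RiemannianBundle (fun x : M => TangentSpace 𝓘(ℝ, E) x)] in
theorem contMDiffOn_push (z : M) (v : E) :
    ContMDiffOn 𝓘(ℝ, E) 𝓘(ℝ, E).tangent ∞
      (fun q : E => (⟨(chartAt E z).symm q, push z q v⟩ : TangentBundle 𝓘(ℝ, E) M))
      (chartAt E z).target := by
  have h1 : ContMDiffOn 𝓘(ℝ, E) 𝓘(ℝ, E) ∞ (chartAt E z).symm (chartAt E z).target :=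
    contMDiffOn_chart_symm
  have hopen : IsOpen (chartAt E z).target := (chartAt E z).open_target
  have h2 := h1.contMDiffOn_tangentMapWithin (m := ∞) (by simp) hopen.uniqueMDiffOn
  have h3 : ContMDiffOn 𝓘(ℝ, E) 𝓘(ℝ, E).tangent ∞
      (fun q : E => (⟨q, v⟩ : TangentBundle 𝓘(ℝ, E) E)) (chartAt E z).target :=
    contMDiffOn_vectorSpace_iff_contDiffOn.2 contDiffOn_const
  have h4 := h2.comp h3 (fun q hq => hq)
  refine h4.congr fun q hq => ?_
  simp only [Function.comp_apply, tangentMapWithin, mfderivWithin_of_isOpen hopen hq, push]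
  rfl

theorem contDiffOn_met [IsContMDiffRiemannianBundle 𝓘(ℝ, E) ∞ E
      (fun x : M => TangentSpace 𝓘(ℝ, E) x)] [FiniteDimensional ℝ E] (z : M) :
    ContDiffOn ℝ ∞ (met z : E → E →L[ℝ] E →L[ℝ] ℝ) (chartAt E z).target := by
  rw [contDiffOn_clm_apply]
  intro v
  rw [contDiffOn_clm_apply]
  intro w
  rw [← contMDiffOn_iff_contDiffOn]
  have := ContMDiffOn.inner_bundle (F := E) (E := fun x : M => TangentSpace 𝓘(ℝ, E) x)
    (IB := 𝓘(ℝ, E)) (n := ∞) (contMDiffOn_push z v) (contMDiffOn_push z w)
  exact this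

end generic

section plane

variable {E : Type*} [NormedAddCommGroup E] [InnerProductSpace ℝ E] [FiniteDimensional ℝ E]
variable {M : Type*} [TopologicalSpace M] [ChartedSpace E M]
  [RiemannianBundle (fun x : M => TangentSpace 𝓘(ℝ, E) x)]
  [IsManifold 𝓘(ℝ, E) ∞ M]
  [IsContMDiffRiemannianBundle 𝓘(ℝ, E) ∞ E (fun x : M => TangentSpace 𝓘(ℝ, E) x)]

variable (E) in
/-- the flat metric -/
noncomputable def flat : E →L[ℝ] E →L[ℝ] ℝ := innerSL ℝ

omit [FiniteDimensional ℝ E] in
theorem flat_apply (v w : E) : flat E v w = inner ℝ v w := rfl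

/-- a global metric which coincides with the Riemannian metric near a point -/
theorem exists_global_metric (z : M) {w : E} {R : ℝ} (hR : 0 < R)
    (hw : closedBall w (2 * R) ⊆ (chartAt E z).target) :
    ∃ g : E → E →L[ℝ] E →L[ℝ] ℝ, ContDiff ℝ ∞ g ∧ (∀ x v u, g x v u = g x u v) ∧
      (∀ x v, v ≠ 0 → 0 < g x v v) ∧ ∀ q ∈ ball w R, g q = met z q := by
  let χ : ContDiffBump w := ⟨R, 2 * R, hR, by linarith⟩
  have hχ0 : ∀ p ∉ closedBall w (2 * R), χ p = 0 := by
    intro p hp
    apply χ.zero_of_le_dist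
    simp only [mem_closedBall, not_le] at hp
    exact hp.le
  refine ⟨fun q => χ q • met z q + (1 - χ q) • flat E, ?_, ?_, ?_, ?_⟩
  · rw [contDiff_clm_apply_iff]
    intro v
    rw [contDiff_clm_apply_iff]
    intro u
    change ContDiff ℝ ∞ fun q => χ q * met z q v u + (1 - χ q) * flat E v u
    rw [contDiff_iff_contDiffAt]
    intro q
    have h2 : ContDiffAt ℝ ∞ χ q := χ.contDiff.contDiffAt
    by_cases hq : q ∈ (chartAt E z).target
    · have h1 : ContDiffAt ℝ ∞ (met z : E → E →L[ℝ] E →L[ℝ] ℝ) q :=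
        (contDiffOn_met z).contDiffAt ((chartAt E z).open_target.mem_nhds hq)
      have h3 : ContDiffAt ℝ ∞ (fun q => met z q v u) q :=
        (h1.clm_apply contDiffAt_const).clm_apply contDiffAt_const
      exact (h2.mul h3).add ((contDiffAt_const.sub h2).mul contDiffAt_const)
    · have h1 : (fun q => χ q * met z q v u + (1 - χ q) * flat E v u) =ᶠ[𝓝 q]
          fun _ => flat E v u := by
        have h2 : (closedBall w (2 * R))ᶜ ∈ 𝓝 q :=
          isClosed_closedBall.isOpen_compl.mem_nhds fun h => hq (hw h)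
        filter_upwards [h2] with p hp
        rw [hχ0 p hp]
        ring
      exact contDiffAt_const.congr_of_eventuallyEq h1
  · intro x v u
    change χ x * met z x v u + (1 - χ x) * flat E v u = χ x * met z x u v + (1 - χ x) * flat E u v
    rw [met_symm, flat_apply, flat_apply, real_inner_comm]
  · intro x v hv
    change 0 < χ x * met z x v v + (1 - χ x) * flat E v v
    have h0 : 0 < flat E v v := by
      rw [flat_apply]
      exact real_inner_self_pos.2 hv
    have h1 : 0 ≤ χ x := χ.nonneg
    have h2 : χ x ≤ 1 := χ.le_one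
    by_cases hx : x ∈ (chartAt E z).target
    · have h3 := met_pos hx hv
      rcases h1.eq_or_lt with h | h
      · rw [← h]; simpa using h0
      · have : 0 ≤ (1 - χ x) * flat E v v := mul_nonneg (by linarith) h0.le
        have := mul_pos h h3
        linarith
    · rw [hχ0 x fun h => hx (hw h)]
      simpa using h0
  · intro q hq
    have h3 : χ q = 1 := χ.one_of_mem_closedBall (ball_subset_closedBall hq)
    ext v u
    change χ q * met z q v u + (1 - χ q) * flat E v u = met z q v u
    rw [h3]
    ring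

end plane

end Pool.Agent.Helper27Nets
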