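import Pool.Agent.Helper27_Nets.Local

set_option autoImplicit false

open Set Filter Topology Metric Bundle MeasureTheory
open scoped ContDiff Manifold ENNReal

namespace Pool.Agent.Helper27Nets

open Pool.Agent.Helper4Nets

section top

variable {E : Type*} [NormedAddCommGroup E]
variable {M : Type*} [MetricSpace M]

/-- points of the manifold close to `c.symm w` are in the chart, close to `w` -/
theorem chart_nhds (c : OpenPartialHomeomorph M E) {w : E} (hw : w ∈ c.target) {O : Set E}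
    (hO : O ∈ 𝓝 w) : ∃ η > 0, ∀ Y : M, dist (c.symm w) Y < η → Y ∈ c.source ∧ c Y ∈ O := by
  have hcw : c.symm w ∈ c.source := c.map_target hw
  have hO : {Y | Y ∈ c.source ∧ c Y ∈ O} ∈ 𝓝 (c.symm w) := by
    have h1 : c.source ∈ 𝓝 (c.symm w) := c.open_source.mem_nhds hcw
    have h2 : c ⁻¹' O ∈ 𝓝 (c.symm w) := by
      apply (c.continuousAt hcw).preimage_mem_nhds
      rwa [c.right_inv hw]
    exact inter_mem h1 h2
  obtain ⟨r1, hr1, hr1'⟩ := Metric.mem_nhds_iff.1 hO
  exact ⟨r1, hr1, fun Y hY => hr1' (by rwa [mem_ball, dist_comm])⟩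

theorem chart_symm_nhds (c : OpenPartialHomeomorph M E) {w : E} (hw : w ∈ c.target) {η : ℝ}
    (hη : 0 < η) : ∃ s > 0, ∀ x ∈ ball w s, dist (c.symm x) (c.symm w) < η :=
  Metric.continuousAt_iff.1 (c.continuousAt_symm hw) η hη

end top

section

variable {M : Type*} [MetricSpace M] [ChartedSpace E2 M]
  [RiemannianBundle (fun x : M => TangentSpace 𝓘(ℝ, E2) x)]
  [IsManifold 𝓘(ℝ, E2) ∞ M]

theorem D2_congr {X : Type*} [NormedAddCommGroup X] [NormedSpace ℝ X] {f g : X → ℝ} {x : X}
    (h : f =ᶠ[𝓝 x] g) : D2 f x = D2 g x := h.fderiv.fderiv_eq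

theorem nice_local {z : M} {w : E2} {R δ : ℝ} {γ γ' : E2 → E2 → ℝ → E2} {En : E2 × E2 → ℝ}
    (H : LocalGeod z w R δ γ γ' En) {O : Set E2} (hO : O ∈ 𝓝 w) :
    ∃ s B, B ⊆ O ∧ B ⊆ (chartAt E2 z).target ∧
      NiceLocal (fun x y => dist ((chartAt E2 z).symm x) ((chartAt E2 z).symm y)) w s B := by
  have hwt : w ∈ (chartAt E2 z).target := H.sub (mem_ball_self (H.δ_pos.trans_le H.δ_le))
  obtain ⟨β0, hβ0, hβ0'⟩ := Metric.mem_nhds_iff.1 hO
  set β := min β0 δ with hβ
  have hβpos : 0 < β := lt_min hβ0 H.δ_pos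
  have hBδ : ball w β ⊆ ball w δ := ball_subset_ball (min_le_right _ _)
  have hBt : ball w β ⊆ (chartAt E2 z).target :=
    (hBδ.trans (ball_subset_ball H.δ_le)).trans H.sub
  obtain ⟨η, hη, hη'⟩ := chart_nhds (chartAt E2 z) hwt (ball_mem_nhds w hβpos)
  obtain ⟨s1, hs1, hs1'⟩ := chart_symm_nhds (chartAt E2 z) hwt (η := η / 4) (by positivity)
  obtain ⟨s2, hs2, hs2'⟩ := H.refl β hβpos
  set s := min β (min s1 s2) with hs
  have hspos : 0 < s := lt_min hβpos (lt_min hs1 hs2)
  have hsβ : ball w s ⊆ ball w β := ball_subset_ball (min_le_left _ _)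
  have hss1 : ball w s ⊆ ball w s1 :=
    ball_subset_ball ((min_le_right _ _).trans (min_le_left _ _))
  have hss2 : ball w s ⊆ ball w s2 :=
    ball_subset_ball ((min_le_right _ _).trans (min_le_right _ _))
  have h1I : (1 : ℝ) ∈ Icc (0 : ℝ) 1 := ⟨zero_le_one, le_rfl⟩
  have h0I : (0 : ℝ) ∈ Icc (0 : ℝ) 1 := ⟨le_rfl, zero_le_one⟩
  have hhI : (1 / 2 : ℝ) ∈ Icc (0 : ℝ) 1 := ⟨by norm_num, by norm_num⟩
  set ρ : E2 → E2 → ℝ := fun x y => dist ((chartAt E2 z).symm x) ((chartAt E2 z).symm y) with hρ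
  have hsg : ∀ p ∈ ball w β ×ˢ ball w β, sg ρ p = En p := by
    intro p hp
    have := H.dist_sq p.1 (hBδ hp.1) p.2 (hBδ hp.2)
    simp only [sg, hρ, this]
    ring
  have hopen : IsOpen (ball w β ×ˢ ball w β) := isOpen_ball.prod isOpen_ball
  have hev : ∀ p ∈ ball w β ×ˢ ball w β, sg ρ =ᶠ[𝓝 p] En := fun p hp =>
    Filter.eventuallyEq_of_mem (hopen.mem_nhds hp) hsg
  have hD2 : ∀ x ∈ ball w β, ∀ u v u' v', D2 (sg ρ) (x, x) (u, v) (u', v') =
      met z x (u - v) (u' - v') := by
    intro x hx u v u' v'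
    rw [D2_congr (hev (x, x) ⟨hx, hx⟩)]
    exact H.hess x (hBδ hx) u v u' v'
  refine ⟨s, ball w β, (ball_subset_ball (min_le_left _ _)).trans hβ0', hBt, ?_⟩
  exact
    { s_pos := hspos
      isOpen := isOpen_ball
      ball_sub := hsβ
      self := fun x => dist_self _
      symm := fun x y => dist_comm _ _
      nonneg := fun x y => dist_nonneg
      tri := fun x y w => dist_triangle _ _ _
      pos := fun x hx y hy hxy => dist_pos.2 fun h =>
        hxy ((chartAt E2 z).symm.injOn (hBt hx) (hBt hy) h)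
      near := fun m hm ε hε => by
        obtain ⟨η, hη, hη'⟩ := chart_nhds (chartAt E2 z) (hBt hm) (ball_mem_nhds m hε)
        refine ⟨η, hη, fun q hq hqm => ?_⟩
        have := (hη' _ hqm).2
        rw [(chartAt E2 z).right_inv (hBt hq), mem_ball, dist_eq_norm] at this
        exact this
      smooth := (H.smooth.mono (prod_mono hBδ hBδ)).congr hsg
      posdef := fun x hx v hv => by
        rw [hD2 x hx, ]
        simpa using met_pos (hBt hx) hv
      eik := fun x hx y hy => by
        refine ⟨γ' x y 1, fun v => ?_, ?_⟩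
        · rw [hD2 y hy, (hev (x, y) ⟨hx, hy⟩).fderiv_eq, H.fd x (hBδ hx) y (hBδ hy)]
          simp
        · rw [hD2 y hy]
          have := H.speed x (hBδ hx) y (hBδ hy) 1 h1I
          rw [H.γ1 x (hBδ hx) y (hBδ hy)] at this
          rw [hρ]
          simp only
          rw [H.dist_sq x (hBδ hx) y (hBδ hy), ← this]
          simp
      seg := fun x hx y hy t ht => by
        have hxδ := hBδ (hsβ hx)
        have hyδ := hBδ (hsβ hy)
        have hmt : γ x y t ∈ (chartAt E2 z).target := H.sub (H.mem x hxδ y hyδ t ht)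
        have e1 := H.dist_seg x hxδ y hyδ 0 h0I t ht
        have e2 := H.dist_seg x hxδ y hyδ t ht 1 h1I
        rw [H.γ0 x hxδ y hyδ, zero_sub, abs_neg, abs_of_nonneg ht.1] at e1
        rw [H.γ1 x hxδ y hyδ, abs_sub_comm, abs_of_nonneg (by linarith [ht.2])] at e2
        refine ⟨γ x y t, ?_, e1, e2⟩
        have h1 := hs1' x (hss1 hx)
        have h2 := hs1' y (hss1 hy)
        have h3 := dist_triangle_right ((chartAt E2 z).symm x) ((chartAt E2 z).symm y)
          ((chartAt E2 z).symm w)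
        have h4 := dist_triangle_left ((chartAt E2 z).symm w) ((chartAt E2 z).symm (γ x y t))
          ((chartAt E2 z).symm x)
        have h5 : t * dist ((chartAt E2 z).symm x) ((chartAt E2 z).symm y) ≤
            1 * dist ((chartAt E2 z).symm x) ((chartAt E2 z).symm y) :=
          mul_le_mul_of_nonneg_right ht.2 dist_nonneg
        have h6 := (hη' ((chartAt E2 z).symm (γ x y t)) (by linarith)).2
        rwa [(chartAt E2 z).right_inv hmt] at h6
      refl := fun p hp m hm => by
        obtain ⟨q, hq, hqm⟩ := hs2' p (hss2 hp) m (hss2 hm)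
        refine ⟨q, hq, ?_⟩
        have hpδ := hBδ (hsβ hp)
        have hqδ := hBδ hq
        have e1 := H.dist_seg p hpδ q hqδ 0 h0I (1 / 2) hhI
        have e2 := H.dist_seg p hpδ q hqδ (1 / 2) hhI 1 h1I
        rw [H.γ0 p hpδ q hqδ, hqm] at e1
        rw [H.γ1 p hpδ q hqδ, hqm] at e2
        have e3 : |(0 : ℝ) - 1 / 2| = 1 / 2 := by norm_num [abs_of_pos]
        have e4 : |(1 / 2 : ℝ) - 1| = 1 / 2 := by
          rw [abs_sub_comm]; norm_num [abs_of_pos]
        rw [e3] at e1
        rw [e4] at e2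
        simp only [hρ]
        constructor <;> linarith }

end

end Pool.Agent.Helper27Nets
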