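import Pool.Agent.Helper4_Nets.M4.Split

set_option autoImplicit false

open Set Filter Topology Metric
open scoped ContDiff

namespace Pool.Agent.Helper4Nets

/-- functionals without common zero: reproducing formula -/
lemma exists_reproducing {V ι : Type*} [AddCommGroup V] [Module ℝ V] [FiniteDimensional ℝ V]
    (f : ι → Module.Dual ℝ V) (hf : ∀ v, (∀ i, f i v = 0) → v = 0) :
    ∃ (t : Finset ι) (e : ι → V), ∀ v, ∑ i ∈ t, f i v • e i = v := by
  classical
  have hspan : Submodule.span ℝ (range f) = ⊤ := by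
    have h1 : (Submodule.span ℝ (range f)).dualCoannihilator = ⊥ := by
      rw [eq_bot_iff]
      intro v hv
      rw [Submodule.mem_dualCoannihilator] at hv
      exact hf v fun i => hv _ (Submodule.subset_span ⟨i, rfl⟩)
    have h2 := Subspace.dualCoannihilator_dualAnnihilator_eq
      (W := Submodule.span ℝ (range f))
    rw [← h2, h1, Submodule.dualAnnihilator_bot]
  set b := Module.finBasis ℝ V with hb
  have hmem : ∀ k, ∃ c : ι →₀ ℝ, Finsupp.linearCombination ℝ f c = b.coord k := by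
    intro k
    have : b.coord k ∈ Submodule.span ℝ (range f) := by rw [hspan]; trivial
    rwa [Finsupp.mem_span_range_iff_exists_finsupp] at this
  choose c hc using hmem
  refine ⟨Finset.univ.biUnion fun k => (c k).support, fun i => ∑ k, c k i • b k, fun v => ?_⟩
  have h3 : ∀ k, ∑ i ∈ Finset.univ.biUnion (fun k => (c k).support), f i v * c k i = b.coord k v := by
    intro k
    rw [← hc k, Finsupp.linearCombination_apply, Finsupp.sum, LinearMap.sum_apply]
    symm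
    refine Finset.sum_subset_zero_on_sdiff
      (Finset.subset_biUnion_of_mem (fun k => (c k).support) (Finset.mem_univ k)) ?_ ?_
    · intro i hi
      have := (Finset.mem_sdiff.1 hi).2
      rw [Finsupp.notMem_support_iff.1 this, mul_zero]
    · intro i _
      simp [mul_comm]
  simp_rw [Finset.smul_sum, smul_smul]
  rw [Finset.sum_comm]
  simp_rw [← Finset.sum_smul]
  simp_rw [h3]
  simp [Module.Basis.coord_apply, b.sum_repr]

/-- continuous solutions of a nondegenerate equation are smooth -/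
lemma smooth_of_implicit {X V : Type*} [NormedAddCommGroup X] [NormedSpace ℝ X] [CompleteSpace X]
    [NormedAddCommGroup V] [NormedSpace ℝ V] [CompleteSpace V] {f : X × V → V} {x : X} {g : X → V}
    (hf : ContDiffAt ℝ 2 f (x, g x))
    (hinv : ∀ v, fderiv ℝ f (x, g x) (0, v) = v) (hg : ContinuousAt g x)
    (he : ∀ᶠ y in 𝓝 x, f (y, g y) = f (x, g x)) : ContDiffAt ℝ 2 g x := by
  have h1 : (fderiv ℝ f (x, g x) ∘L .inr ℝ X V).IsInvertible := by
    have : fderiv ℝ f (x, g x) ∘L .inr ℝ X V = ContinuousLinearMap.id ℝ V :=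
      ContinuousLinearMap.ext fun v => hinv v
    rw [this]
    exact ⟨ContinuousLinearEquiv.refl ℝ V, rfl⟩
  have h2 := hf.eventually_apply_eq_iff_implicitFunction two_ne_zero h1
  have h3 : Tendsto (fun y => (y, g y)) (𝓝 x) (𝓝 (x, g x)) :=
    (continuousAt_id.prodMk hg).tendsto
  have h4 : ∀ᶠ y in 𝓝 x, g y = hf.implicitFunction two_ne_zero h1 y := by
    filter_upwards [h3.eventually h2, he] with y hy1 hy2
    exact (hy1.1 hy2).symm
  exact (hf.contDiffAt_implicitFunction two_ne_zero h1).congr_of_eventuallyEq h4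

/-- the equation of the fields for a fixed base point `p` -/
noncomputable def Ep (ρ : E2 → E2 → ℝ) (ξp ηp p : E2) (q : E2 × (E2 × E2)) : ℝ :=
  D2 (unc ρ) (p, q.1) (ξp, q.2.1) (ξp, q.2.1) - fderiv ℝ (unc ρ) (p, q.1) (ηp, q.2.2)

lemma Ep_contDiffAt {ρ : E2 → E2 → ℝ} {p m : E2} (h : ContDiffAt ℝ 4 (unc ρ) (p, m))
    (ξp ηp : E2) (ab : E2 × E2) : ContDiffAt ℝ 2 (Ep ρ ξp ηp p) (m, ab) := by
  have h1 : ContDiffAt ℝ 3 (fderiv ℝ (unc ρ)) (p, m) := h.fderiv_right (by norm_num)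
  have h2 : ContDiffAt ℝ 2 (fderiv ℝ (fderiv ℝ (unc ρ))) (p, m) := h1.fderiv_right (by norm_num)
  have hφ : ContDiffAt ℝ 2 (fun q : E2 × (E2 × E2) => (p, q.1)) (m, ab) :=
    contDiffAt_const.prodMk contDiffAt_fst
  have h2' : ContDiffAt ℝ 2 (fun q : E2 × (E2 × E2) => fderiv ℝ (fderiv ℝ (unc ρ)) (p, q.1))
      (m, ab) := ContDiffAt.comp (m, ab) (g := fderiv ℝ (fderiv ℝ (unc ρ))) h2 hφ
  have h1' : ContDiffAt ℝ 2 (fun q : E2 × (E2 × E2) => fderiv ℝ (unc ρ) (p, q.1))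
      (m, ab) := ContDiffAt.comp (m, ab) (g := fderiv ℝ (unc ρ)) (h1.of_le (by norm_num)) hφ
  have ha : ContDiffAt ℝ 2 (fun q : E2 × (E2 × E2) => (ξp, q.2.1)) (m, ab) := by fun_prop
  have hb : ContDiffAt ℝ 2 (fun q : E2 × (E2 × E2) => (ηp, q.2.2)) (m, ab) := by fun_prop
  exact ((h2'.clm_apply ha).clm_apply ha).sub (h1'.clm_apply hb)

lemma Ep_fderiv {ρ : E2 → E2 → ℝ} {p m : E2} (h : ContDiffAt ℝ 4 (unc ρ) (p, m))
    (ξp ηp : E2) (a b : E2) (ζ μ : E2) :
    fderiv ℝ (Ep ρ ξp ηp p) (m, (a, b)) (0, (ζ, μ)) =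
      2 * D2 (unc ρ) (p, m) (ξp, a) (0, ζ) - lam ρ p m μ := by
  have hd : DifferentiableAt ℝ (Ep ρ ξp ηp p) (m, (a, b)) :=
    (Ep_contDiffAt h ξp ηp (a, b)).differentiableAt two_ne_zero
  -- derivative along the line
  have h1 : HasDerivAt (fun t : ℝ => Ep ρ ξp ηp p (m, (a + t • ζ, b + t • μ)))
      (fderiv ℝ (Ep ρ ξp ηp p) (m, (a, b)) (0, (ζ, μ))) 0 := by
    have hl : HasDerivAt (fun t : ℝ => (m, (a + t • ζ, b + t • μ))) ((0 : E2), (ζ, μ)) 0 := by
      have e1 : HasDerivAt (fun t : ℝ => a + t • ζ) ζ 0 := by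
        simpa using ((hasDerivAt_id (0 : ℝ)).smul_const ζ).const_add a
      have e2 : HasDerivAt (fun t : ℝ => b + t • μ) μ 0 := by
        simpa using ((hasDerivAt_id (0 : ℝ)).smul_const μ).const_add b
      exact (hasDerivAt_const (0 : ℝ) m).prodMk (e1.prodMk e2)
    have hd' : HasFDerivAt (Ep ρ ξp ηp p) (fderiv ℝ (Ep ρ ξp ηp p) (m, (a, b)))
        (m, (a + (0 : ℝ) • ζ, b + (0 : ℝ) • μ)) := by
      simpa using hd.hasFDerivAt
    exact hd'.comp_hasDerivAt (0 : ℝ) hl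
  set T := D2 (unc ρ) (p, m) with hT
  have hsymm : ∀ v w, T v w = T w v := fun v w => D2_symm (h.of_le (by norm_num)) v w
  have h2 : HasDerivAt (fun t : ℝ => Ep ρ ξp ηp p (m, (a + t • ζ, b + t • μ)))
      (2 * T (ξp, a) (0, ζ) - fderiv ℝ (unc ρ) (p, m) (0, μ)) 0 := by
    have e : (fun t : ℝ => Ep ρ ξp ηp p (m, (a + t • ζ, b + t • μ))) = fun t : ℝ =>
        (T (ξp, a) (ξp, a) - fderiv ℝ (unc ρ) (p, m) (ηp, b)) +
          t * (2 * T (ξp, a) (0, ζ) - fderiv ℝ (unc ρ) (p, m) (0, μ)) +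
          t ^ 2 * T (0, ζ) (0, ζ) := by
      funext t
      have e1 : ((ξp, a + t • ζ) : E2 × E2) = (ξp, a) + t • (0, ζ) := by simp
      have e2 : ((ηp, b + t • μ) : E2 × E2) = (ηp, b) + t • (0, μ) := by simp
      simp only [Ep]
      rw [← hT, e1, e2]
      simp only [map_add, map_smul, smul_eq_mul]
      change (T (ξp, a)) (ξp, a) + t * (T (0, ζ)) (ξp, a) +
        t * ((T (ξp, a)) (0, ζ) + t * (T (0, ζ)) (0, ζ)) - _ = _
      rw [hsymm (0, ζ) (ξp, a)]
      ring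
    rw [e]
    have d1 : HasDerivAt (fun t : ℝ => t * (2 * T (ξp, a) (0, ζ) - fderiv ℝ (unc ρ) (p, m) (0, μ)))
        (2 * T (ξp, a) (0, ζ) - fderiv ℝ (unc ρ) (p, m) (0, μ)) 0 := by
      simpa using (hasDerivAt_id (0 : ℝ)).mul_const
        (2 * T (ξp, a) (0, ζ) - fderiv ℝ (unc ρ) (p, m) (0, μ))
    have d2 : HasDerivAt (fun t : ℝ => t ^ 2 * T (0, ζ) (0, ζ)) 0 0 := by
      simpa using ((hasDerivAt_id (0 : ℝ)).pow 2).mul_const (T (0, ζ) (0, ζ))
    have d3 := (d1.const_add (T (ξp, a) (ξp, a) - fderiv ℝ (unc ρ) (p, m) (ηp, b))).fun_add d2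
    rw [add_zero] at d3
    exact d3
  exact h1.unique h2

theorem p2 : P2 := by
  intro ρ z s B h ξ η hF m hm W hW hker
  -- the functionals
  let I := {p : E2 // p ∈ W ∧ p ≠ m}
  let f : I → Module.Dual ℝ (E2 × E2) := fun p =>
    { toFun := fun v => 2 * Dd ρ ξ p m v.1 - lam ρ p m v.2
      map_add' := fun v w => by
        simp only [Prod.fst_add, Prod.snd_add, map_add]; ring
      map_smul' := fun t v => by
        simp only [Prod.smul_fst, Prod.smul_snd, map_smul, smul_eq_mul, RingHom.id_apply]; ring }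
  have hf : ∀ v, (∀ i, f i v = 0) → v = 0 := by
    intro v hv
    obtain ⟨h1, h2⟩ := hker v.1 v.2 fun p hp hpm => by
      have := hv ⟨p, hp, hpm⟩
      change 2 * Dd ρ ξ p m v.1 - lam ρ p m v.2 = 0 at this
      linarith
    exact Prod.ext h1 h2
  obtain ⟨t, e, hte⟩ := exists_reproducing f hf
  -- the equation
  let G : E2 × (E2 × E2) → E2 × E2 := fun q => ∑ i ∈ t, Ep ρ (ξ i) (η i) i q • e i
  let g : E2 → E2 × E2 := fun y => (ξ y, η y)
  have hcd : ∀ i : I, ContDiffAt ℝ 4 (unc ρ) ((i : E2), m) := fun i =>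
    h.unc_cd (hW i.2.1) hm i.2.2
  have hG : ContDiffAt ℝ 2 G (m, g m) :=
    ContDiffAt.sum fun i _ => (Ep_contDiffAt (hcd i) (ξ i) (η i) (g m)).smul contDiffAt_const
  have hGd : ∀ v, fderiv ℝ G (m, g m) (0, v) = v := by
    intro v
    have h1 : HasFDerivAt G (∑ i ∈ t, (fderiv ℝ (Ep ρ (ξ i) (η i) i) (m, g m)).smulRight (e i))
        (m, g m) := by
      refine HasFDerivAt.fun_sum fun i _ => ?_
      exact (((Ep_contDiffAt (hcd i) (ξ i) (η i) (g m)).differentiableAt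
        two_ne_zero).hasFDerivAt).smul_const (e i)
    rw [h1.fderiv, sum_apply]
    conv_rhs => rw [← hte v]
    refine Finset.sum_congr rfl fun i _ => ?_
    rw [ContinuousLinearMap.smulRight_apply]
    congr 1
    exact Ep_fderiv (hcd i) (ξ i) (η i) (ξ m) (η m) v.1 v.2
  have hgc : ContinuousAt g m := (h.xi_cont hF hm).prodMk (h.eta_cont hF hm)
  have hG0 : ∀ y ∈ B, (∀ i ∈ t, (i : E2) ≠ y) → G (y, g y) = 0 := by
    intro y hy hne
    refine Finset.sum_eq_zero fun i hi => ?_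
    have := hF.eq i (hW i.2.1) y hy (hne i hi)
    simp only [Ep, g]
    rw [this, sub_self, zero_smul]
  have hev : ∀ᶠ y in 𝓝 m, G (y, g y) = G (m, g m) := by
    have h1 : ∀ᶠ y in 𝓝 m, ∀ i ∈ t, (i : E2) ≠ y := by
      rw [Filter.eventually_all_finset]
      intro i _
      exact (eventually_ne_nhds i.2.2.symm).mono fun y hy => hy.symm
    filter_upwards [h1, h.nhds hm] with y hy hyB
    rw [hG0 y hyB hy, hG0 m hm fun i _ => i.2.2]
  have hfin := smooth_of_implicit hG hGd hgc hev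
  exact ⟨hfin.fst, hfin.snd⟩

end Pool.Agent.Helper4Nets
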