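import Pool.Agent.Helper27_Nets.Variation

set_option autoImplicit false

open Set Filter Topology Metric Bundle MeasureTheory
open scoped ContDiff Manifold ENNReal

namespace Pool.Agent.Helper27Nets

open Pool.Agent.Helper4Nets

theorem exists_finite_cover {M : Type*} [MetricSpace M] [CompactSpace M] [ChartedSpace E2 M] :
    ∃ (t : Finset M) (ρ : M → ℝ), (∀ z, closedBall z (ρ z) ⊆ (chartAt E2 z).source) ∧
      ∀ x, ∃ z ∈ t, x ∈ closedBall z (ρ z) := by
  have h : ∀ z : M, ∃ ρ > 0, closedBall z ρ ⊆ (chartAt E2 z).source := by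
    intro z
    exact Metric.nhds_basis_closedBall.mem_iff.1 (chart_source_mem_nhds E2 z)
  choose ρ hρ hρ' using h
  obtain ⟨t, -, ht⟩ := isCompact_univ.elim_nhds_subcover (fun z : M => ball z (ρ z))
    (fun z _ => ball_mem_nhds z (hρ z))
  refine ⟨t, ρ, hρ', fun x => ?_⟩
  obtain ⟨z, hz, hx⟩ := mem_iUnion₂.1 (ht (mem_univ x))
  exact ⟨z, hz, ball_subset_closedBall hx⟩

theorem partI_of_shortGeod (hSG : ShortGeod E2)
    (S : Type) [MetricSpace S] [ChartedSpace (EuclideanSpace ℝ (Fin 2)) S]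
    [IsManifold 𝓘(ℝ, EuclideanSpace ℝ (Fin 2)) ∞ S] [CompactSpace S]
    [RiemannianBundle (fun x : S => TangentSpace 𝓘(ℝ, EuclideanSpace ℝ (Fin 2)) x)]
    [IsContMDiffRiemannianBundle 𝓘(ℝ, EuclideanSpace ℝ (Fin 2)) ∞ (EuclideanSpace ℝ (Fin 2))
      (fun x : S => TangentSpace 𝓘(ℝ, EuclideanSpace ℝ (Fin 2)) x)]
    [IsRiemannianManifold 𝓘(ℝ, EuclideanSpace ℝ (Fin 2)) S] : PartI S := by
  have hloc : ∀ z : S, ∃ (R δ : ℝ) (γ γ' : E2 → E2 → ℝ → E2) (En : E2 × E2 → ℝ), R ≤ 1 ∧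
      LocalGeod z (chartAt E2 z z) R δ γ γ' En := fun z =>
    exists_localGeod hSG z (mem_chart_target E2 z) one_pos
  choose R δ γ γ' En hR H using hloc
  -- the Lebesgue number
  have hopen : ∀ z : S, IsOpen ((chartAt E2 z).symm '' ball (chartAt E2 z z) (δ z)) := fun z =>
    ((chartAt E2 z).symm.isOpen_image_iff_of_subset_source (H z).ball_target).2 isOpen_ball
  have hcover : (univ : Set S) ⊆ ⋃ z : S, (chartAt E2 z).symm '' ball (chartAt E2 z z) (δ z) := by
    intro z _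
    exact mem_iUnion.2 ⟨z, chartAt E2 z z, mem_ball_self (H z).δ_pos,
      (chartAt E2 z).left_inv (mem_chart_source E2 z)⟩
  obtain ⟨r, hr, hr'⟩ := lebesgue_number_lemma_of_metric isCompact_univ hopen hcover
  have hpair : ∀ X Y : S, dist X Y < r → ∃ z : S, ∃ a ∈ ball (chartAt E2 z z) (δ z),
      ∃ b ∈ ball (chartAt E2 z z) (δ z), (chartAt E2 z).symm a = X ∧
        (chartAt E2 z).symm b = Y := by
    intro X Y hXY
    obtain ⟨z, hz⟩ := hr' X (mem_univ X)
    obtain ⟨a, ha, hX⟩ := hz (mem_ball_self hr)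
    obtain ⟨b, hb, hY⟩ := hz (mem_ball'.2 hXY)
    exact ⟨z, a, ha, b, hb, hX, hY⟩
  obtain ⟨t, ρ, hρ, ht⟩ := exists_finite_cover (M := S)
  have h1I : (1 : ℝ) ∈ Icc (0 : ℝ) 1 := ⟨zero_le_one, le_rfl⟩
  have h0I : (0 : ℝ) ∈ Icc (0 : ℝ) 1 := ⟨le_rfl, zero_le_one⟩
  have hhI : (1 / 2 : ℝ) ∈ Icc (0 : ℝ) 1 := ⟨by norm_num, by norm_num⟩
  let A : GoodAtlas S :=
    { ι := {z // z ∈ t}
      fin := inferInstance
      c := fun i => chartAt E2 i.1
      K := fun i => closedBall i.1 (ρ i.1)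
      K_closed := fun i => isClosed_closedBall
      K_sub := fun i => hρ i.1
      K_cover := fun x => by
        obtain ⟨z, hz, hx⟩ := ht x
        exact ⟨⟨z, hz⟩, hx⟩
      r := r
      r_pos := hr
      trans := fun i j => transition_contDiffOn i.1 j.1
      smooth := fun i j x hx y hy h0 h1 => by
        obtain ⟨z, a, ha, b, hb, hX, hY⟩ := hpair _ _ h1
        refine (H z).contDiffAt_dist_charts ha hb hx hy hX.symm hY.symm ?_
        rintro rfl
        rw [← hX, ← hY, dist_self] at h0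
        exact lt_irrefl _ h0
      lip := fun i x hx => chart_symm_lip i.1 hx
      mid := fun X Y hXY => by
        obtain ⟨z, a, ha, b, hb, rfl, rfl⟩ := hpair _ _ hXY
        have e1 := (H z).dist_seg a ha b hb 0 h0I (1 / 2) hhI
        have e2 := (H z).dist_seg a ha b hb (1 / 2) hhI 1 h1I
        rw [(H z).γ0 a ha b hb] at e1
        rw [(H z).γ1 a ha b hb] at e2
        have e3 : |(0 : ℝ) - 1 / 2| = 1 / 2 := by norm_num [abs_of_pos]
        have e4 : |(1 / 2 : ℝ) - 1| = 1 / 2 := by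
          rw [abs_sub_comm]; norm_num [abs_of_pos]
        rw [e3] at e1
        rw [e4] at e2
        exact ⟨(chartAt E2 z).symm (γ z a b (1 / 2)), by linarith, by linarith⟩
      nice := fun z => by
        obtain ⟨z₀, hz₀, hz⟩ := ht z
        have hs : z ∈ (chartAt E2 z₀).source := hρ z₀ hz
        refine ⟨⟨z₀, hz₀⟩, hs, ?_⟩
        have hw : chartAt E2 z₀ z ∈ (chartAt E2 z₀).target := (chartAt E2 z₀).map_source hs
        obtain ⟨R', δ', g, g', En', -, H'⟩ := exists_localGeod hSG z₀ hw one_pos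
        have hc : ContinuousAt (chartAt E2 z₀).symm (chartAt E2 z₀ z) :=
          (chartAt E2 z₀).continuousAt_symm hw
        have hO : (chartAt E2 z₀).symm ⁻¹' ball z (r / 2) ∈ 𝓝 (chartAt E2 z₀ z) := by
          apply hc.preimage_mem_nhds
          rw [(chartAt E2 z₀).left_inv hs]
          exact ball_mem_nhds z (by positivity)
        obtain ⟨s, B, hBO, hBt, hN⟩ := nice_local H' hO
        refine ⟨s, B, hBt, fun x hx y hy => ?_, hN⟩
        have h1 : dist ((chartAt E2 z₀).symm x) z < r / 2 := hBO hx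
        have h2 : dist ((chartAt E2 z₀).symm y) z < r / 2 := hBO hy
        have h3 := dist_triangle_right ((chartAt E2 z₀).symm x) ((chartAt E2 z₀).symm y) z
        linarith }
  refine ⟨A, fun i => ⟨i.1, rfl⟩, ?_⟩
  intro X Y hne hXY
  obtain ⟨z, a, ha, b, hb, rfl, rfl⟩ := hpair X Y hXY
  have hab : a ≠ b := by rintro rfl; exact hne rfl
  have v0 := velocity (z := z) h0I ((H z).deriv a ha b hb 0 h0I)
    ((H z).sub ((H z).mem a ha b hb 0 h0I))
  have v1 := velocity (z := z) h1I ((H z).deriv a ha b hb 1 h1I)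
    ((H z).sub ((H z).mem a ha b hb 1 h1I))
  have hv0 : vel (fun τ => (chartAt E2 z).symm (γ z a b τ)) 0 =
      push z (γ z a b 0) (γ' z a b 0) := v0.2
  have hv1 : vel (fun τ => (chartAt E2 z).symm (γ z a b τ)) 1 =
      push z (γ z a b 1) (γ' z a b 1) := v1.2
  refine ⟨fun τ => (chartAt E2 z).symm (γ z a b τ), ?_, ?_, ?_, v0.1, v1.1, ?_, ?_, ?_, ?_⟩
  · simp only [(H z).γ0 a ha b hb]
  · simp only [(H z).γ1 a ha b hb]
  · intro s hs τ hτ
    rw [(H z).dist_seg a ha b hb s hs τ hτ, mul_comm]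
  · rw [hv0]
    exact (H z).norm_velocity ha hb h0I
  · rw [hv1]
    exact (H z).norm_velocity ha hb h1I
  · intro i hi w
    rw [hv0]
    exact (H z).first_variation_left ha hb hab i.1 hi w
  · intro i hi w
    rw [hv1]
    exact (H z).first_variation_right ha hb hab i.1 hi w

end Pool.Agent.Helper27Nets
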