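import Pool.Agent.Helper27_Nets.Dist

set_option autoImplicit false

open Set Filter Topology Metric Bundle MeasureTheory
open scoped ContDiff Manifold ENNReal

namespace Pool.Agent.Helper27Nets

section vel

variable {E : Type*} [NormedAddCommGroup E] [NormedSpace ℝ E]
variable {M : Type*} [TopologicalSpace M] [ChartedSpace E M] [IsManifold 𝓘(ℝ, E) ∞ M]

theorem velocity {z : M} {κ : ℝ → E} {v : E} {t : ℝ} (ht : t ∈ Icc (0 : ℝ) 1)
    (hκ : HasDerivWithinAt κ v (Icc 0 1) t) (htt : κ t ∈ (chartAt E z).target) :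
    MDifferentiableWithinAt 𝓘(ℝ, ℝ) 𝓘(ℝ, E) (fun t => (chartAt E z).symm (κ t)) (Icc 0 1) t ∧
    mfderivWithin 𝓘(ℝ, ℝ) 𝓘(ℝ, E) (fun t => (chartAt E z).symm (κ t)) (Icc 0 1) t (1 : ℝ) =
      push z (κ t) v := by
  have hu : UniqueMDiffWithinAt 𝓘(ℝ, ℝ) (Icc (0 : ℝ) 1) t := by
    rw [uniqueMDiffWithinAt_iff_uniqueDiffWithinAt]
    exact uniqueDiffOn_Icc zero_lt_one _ ht
  have h1 : MDifferentiableAt 𝓘(ℝ, E) 𝓘(ℝ, E) (chartAt E z).symm (κ t) :=
    (mdifferentiable_chart (I := 𝓘(ℝ, E)) z).mdifferentiableAt_symm htt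
  have h2 : MDifferentiableWithinAt 𝓘(ℝ, ℝ) 𝓘(ℝ, E) κ (Icc 0 1) t :=
    hκ.differentiableWithinAt.mdifferentiableWithinAt
  refine ⟨h1.comp_mdifferentiableWithinAt t h2, ?_⟩
  have h4 : mfderivWithin 𝓘(ℝ, ℝ) 𝓘(ℝ, E) ((chartAt E z).symm ∘ κ) (Icc 0 1) t =
      (mfderiv 𝓘(ℝ, E) 𝓘(ℝ, E) (chartAt E z).symm (κ t)).comp
        (mfderivWithin 𝓘(ℝ, ℝ) 𝓘(ℝ, E) κ (Icc 0 1) t) :=
    mfderiv_comp_mfderivWithin t h1 h2 hu
  have h5 : mfderivWithin 𝓘(ℝ, ℝ) 𝓘(ℝ, E) κ (Icc 0 1) t (1 : ℝ) = v := by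
    rw [mfderivWithin_eq_fderivWithin]
    have := hκ.derivWithin (uniqueDiffOn_Icc zero_lt_one t ht)
    rw [← this]
    rfl
  change mfderivWithin 𝓘(ℝ, ℝ) 𝓘(ℝ, E) ((chartAt E z).symm ∘ κ) (Icc 0 1) t (1 : ℝ) = _
  rw [h4, ← h5]
  rfl

end vel

section final

variable {E : Type*} [NormedAddCommGroup E] [InnerProductSpace ℝ E]
variable {M : Type*} [MetricSpace M] [ChartedSpace E M]
  [RiemannianBundle (fun x : M => TangentSpace 𝓘(ℝ, E) x)] [IsManifold 𝓘(ℝ, E) ∞ M]

namespace LocalGeod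

variable {z : M} {w : E} {R δ : ℝ} {γ γ' : E → E → ℝ → E} {En : E × E → ℝ}

/-- the distance is `C⁴`, read in arbitrary charts -/
theorem contDiffAt_dist_charts (H : LocalGeod z w R δ γ γ' En) {x y : E} (hx : x ∈ ball w δ)
    (hy : y ∈ ball w δ) {z₁ z₂ : M} {x₁ x₂ : E} (h₁ : x₁ ∈ (chartAt E z₁).target)
    (h₂ : x₂ ∈ (chartAt E z₂).target)
    (e₁ : (chartAt E z₁).symm x₁ = (chartAt E z).symm x)
    (e₂ : (chartAt E z₂).symm x₂ = (chartAt E z).symm y) (hxy : x ≠ y) :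
    ContDiffAt ℝ 4 (fun p : E × E => dist ((chartAt E z₁).symm p.1) ((chartAt E z₂).symm p.2))
      (x₁, x₂) := by
  have hm₁ : x₁ ∈ (chartAt E z₁).target ∩ (chartAt E z₁).symm ⁻¹' (chartAt E z).source :=
    ⟨h₁, by rw [mem_preimage, e₁]; exact (chartAt E z).map_target (H.ball_target hx)⟩
  have hm₂ : x₂ ∈ (chartAt E z₂).target ∩ (chartAt E z₂).symm ⁻¹' (chartAt E z).source :=
    ⟨h₂, by rw [mem_preimage, e₂]; exact (chartAt E z).map_target (H.ball_target hy)⟩
  have ho₁ := (isOpen_overlap z₁ z).mem_nhds hm₁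
  have ho₂ := (isOpen_overlap z₂ z).mem_nhds hm₂
  have t₁ : ContDiffAt ℝ 4 (fun q => chartAt E z ((chartAt E z₁).symm q)) x₁ :=
    (transition_contDiffOn z₁ z).contDiffAt ho₁
  have t₂ : ContDiffAt ℝ 4 (fun q => chartAt E z ((chartAt E z₂).symm q)) x₂ :=
    (transition_contDiffOn z₂ z).contDiffAt ho₂
  have hev : (fun p : E × E => dist ((chartAt E z₁).symm p.1) ((chartAt E z₂).symm p.2))
      =ᶠ[𝓝 (x₁, x₂)] (fun p : E × E => dist ((chartAt E z).symm p.1) ((chartAt E z).symm p.2)) ∘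
        (fun p : E × E => (chartAt E z ((chartAt E z₁).symm p.1),
          chartAt E z ((chartAt E z₂).symm p.2))) := by
    filter_upwards [prod_mem_nhds ho₁ ho₂] with p hp
    simp only [Function.comp_apply]
    rw [(chartAt E z).left_inv hp.1.2, (chartAt E z).left_inv hp.2.2]
  refine ContDiffAt.congr_of_eventuallyEq ?_ hev
  have hX : chartAt E z ((chartAt E z₁).symm x₁) = x := by
    rw [e₁, (chartAt E z).right_inv (H.ball_target hx)]
  have hY : chartAt E z ((chartAt E z₂).symm x₂) = y := by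
    rw [e₂, (chartAt E z).right_inv (H.ball_target hy)]
  refine ContDiffAt.comp _ ?_ ?_
  · simp only [hX, hY]
    exact H.contDiffAt_dist hx hy hxy
  · exact (t₁.comp (x₁, x₂) contDiffAt_fst).prodMk (t₂.comp (x₁, x₂) contDiffAt_snd)

/-- first variation at the initial point -/
theorem first_variation_left (H : LocalGeod z w R δ γ γ' En) {x y : E} (hx : x ∈ ball w δ)
    (hy : y ∈ ball w δ) (hxy : x ≠ y) (z₁ : M)
    (hs : (chartAt E z).symm x ∈ (chartAt E z₁).source)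
    (u : TangentSpace 𝓘(ℝ, E) ((chartAt E z).symm (γ x y 0))) :
    fderiv ℝ (fun q => dist ((chartAt E z₁).symm q) ((chartAt E z).symm y))
      (chartAt E z₁ ((chartAt E z).symm x))
      (mfderiv 𝓘(ℝ, E) 𝓘(ℝ, E) (chartAt E z₁) ((chartAt E z).symm (γ x y 0)) u : E) *
        dist ((chartAt E z).symm x) ((chartAt E z).symm y) =
      - inner ℝ (push z (γ x y 0) (γ' x y 0)) u := by
  have h0 := H.γ0 x hx y hy
  have hp : γ x y 0 ∈ (chartAt E z).target := by rw [h0]; exact H.ball_target hx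
  have hd : DifferentiableAt ℝ (fun p : E × E =>
      dist ((chartAt E z).symm p.1) ((chartAt E z).symm p.2)) (x, y) :=
    (H.contDiffAt_dist hx hy hxy).differentiableAt (by norm_num)
  have hd1 : HasFDerivAt (fun q => dist ((chartAt E z).symm q) ((chartAt E z).symm y))
      ((fderiv ℝ (fun p : E × E =>
      dist ((chartAt E z).symm p.1) ((chartAt E z).symm p.2)) (x, y)).comp
        (ContinuousLinearMap.inl ℝ E E)) x :=
    HasFDerivAt.comp (f := fun q : E => (q, y)) (g := fun p : E × E =>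
      dist ((chartAt E z).symm p.1) ((chartAt E z).symm p.2)) x hd.hasFDerivAt
      (hasFDerivAt_prodMk_left x y)
  have hch := fderiv_chart_change (z := z) (z' := z₁) (p := γ x y 0) hp (by rwa [h0])
    (F := fun Y => dist Y ((chartAt E z).symm y))
    (by rw [h0]; exact hd1.differentiableAt) u
  have e0 : (chartAt E z₁ ((chartAt E z).symm x)) = chartAt E z₁ ((chartAt E z).symm (γ x y 0)) := by
    rw [h0]
  rw [e0, hch]
  have e1 : fderiv ℝ (fun q => dist ((chartAt E z).symm q) ((chartAt E z).symm y)) (γ x y 0) =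
      (fderiv ℝ (fun p : E × E =>
      dist ((chartAt E z).symm p.1) ((chartAt E z).symm p.2)) (x, y)).comp
        (ContinuousLinearMap.inl ℝ E E) := by
    rw [h0]
    exact hd1.fderiv
  rw [e1]
  set v : E := mfderiv 𝓘(ℝ, E) 𝓘(ℝ, E) (chartAt E z) ((chartAt E z).symm (γ x y 0)) u with hv
  have e2 := H.fderiv_dist hx hy hxy v 0
  have e3 : ((fderiv ℝ (fun p : E × E =>
      dist ((chartAt E z).symm p.1) ((chartAt E z).symm p.2)) (x, y)).comp
        (ContinuousLinearMap.inl ℝ E E)) v = (fderiv ℝ (fun p : E × E =>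
      dist ((chartAt E z).symm p.1) ((chartAt E z).symm p.2)) (x, y)) (v, 0) := rfl
  rw [e3, e2, map_zero, zero_sub]
  have e4 : met z x (γ' x y 0) v = met z (γ x y 0) (γ' x y 0) v := by rw [h0]
  rw [e4, met_apply, hv]
  congr 2
  exact push_mfderiv hp u

/-- first variation at the end point -/
theorem first_variation_right (H : LocalGeod z w R δ γ γ' En) {x y : E} (hx : x ∈ ball w δ)
    (hy : y ∈ ball w δ) (hxy : x ≠ y) (z₁ : M)
    (hs : (chartAt E z).symm y ∈ (chartAt E z₁).source)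
    (u : TangentSpace 𝓘(ℝ, E) ((chartAt E z).symm (γ x y 1))) :
    fderiv ℝ (fun q => dist ((chartAt E z).symm x) ((chartAt E z₁).symm q))
      (chartAt E z₁ ((chartAt E z).symm y))
      (mfderiv 𝓘(ℝ, E) 𝓘(ℝ, E) (chartAt E z₁) ((chartAt E z).symm (γ x y 1)) u : E) *
        dist ((chartAt E z).symm x) ((chartAt E z).symm y) =
      inner ℝ (push z (γ x y 1) (γ' x y 1)) u := by
  have h0 := H.γ1 x hx y hy
  have hp : γ x y 1 ∈ (chartAt E z).target := by rw [h0]; exact H.ball_target hy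
  have hd : DifferentiableAt ℝ (fun p : E × E =>
      dist ((chartAt E z).symm p.1) ((chartAt E z).symm p.2)) (x, y) :=
    (H.contDiffAt_dist hx hy hxy).differentiableAt (by norm_num)
  have hd1 : HasFDerivAt (fun q => dist ((chartAt E z).symm x) ((chartAt E z).symm q))
      ((fderiv ℝ (fun p : E × E =>
      dist ((chartAt E z).symm p.1) ((chartAt E z).symm p.2)) (x, y)).comp
        (ContinuousLinearMap.inr ℝ E E)) y :=
    hd.hasFDerivAt.comp y (hasFDerivAt_prodMk_right x y)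
  have hch := fderiv_chart_change (z := z) (z' := z₁) (p := γ x y 1) hp (by rwa [h0])
    (F := fun Y => dist ((chartAt E z).symm x) Y)
    (by rw [h0]; exact hd1.differentiableAt) u
  have e0 : (chartAt E z₁ ((chartAt E z).symm y)) = chartAt E z₁ ((chartAt E z).symm (γ x y 1)) := by
    rw [h0]
  rw [e0, hch]
  have e1 : fderiv ℝ (fun q => dist ((chartAt E z).symm x) ((chartAt E z).symm q)) (γ x y 1) =
      (fderiv ℝ (fun p : E × E =>
      dist ((chartAt E z).symm p.1) ((chartAt E z).symm p.2)) (x, y)).comp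
        (ContinuousLinearMap.inr ℝ E E) := by
    rw [h0]
    exact hd1.fderiv
  rw [e1]
  set v : E := mfderiv 𝓘(ℝ, E) 𝓘(ℝ, E) (chartAt E z) ((chartAt E z).symm (γ x y 1)) u with hv
  have e2 := H.fderiv_dist hx hy hxy 0 v
  have e3 : ((fderiv ℝ (fun p : E × E =>
      dist ((chartAt E z).symm p.1) ((chartAt E z).symm p.2)) (x, y)).comp
        (ContinuousLinearMap.inr ℝ E E)) v = (fderiv ℝ (fun p : E × E =>
      dist ((chartAt E z).symm p.1) ((chartAt E z).symm p.2)) (x, y)) (0, v) := rfl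
  rw [e3, e2, map_zero, sub_zero]
  have e4 : met z y (γ' x y 1) v = met z (γ x y 1) (γ' x y 1) v := by rw [h0]
  rw [e4, met_apply, hv]
  congr 1
  exact push_mfderiv hp u

omit [IsManifold 𝓘(ℝ, E) ∞ M] in
theorem norm_velocity (H : LocalGeod z w R δ γ γ' En) {x y : E} (hx : x ∈ ball w δ)
    (hy : y ∈ ball w δ) {t : ℝ} (ht : t ∈ Icc (0 : ℝ) 1) :
    ‖push z (γ x y t) (γ' x y t)‖ = dist ((chartAt E z).symm x) ((chartAt E z).symm y) := by
  have h1 := H.speed x hx y hy t ht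
  rw [met_self, ← H.dist_sq x hx y hy] at h1
  exact (sq_eq_sq₀ (norm_nonneg _) dist_nonneg).1 h1

end LocalGeod

end final

end Pool.Agent.Helper27Nets
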